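import Pool.Agent.Helper85.FT.Turan

/-!
# The asymptotic statement
-/

set_option autoImplicit false
set_option linter.unusedSectionVars false

open Finset Filter Topology

namespace Pool.Agent.Helper85.FT

open Pool.Agent.Helper33.Flat

lemma tendsto_natDiv_div (a : ℕ) :
    Tendsto (fun n : ℕ => ((n / a : ℕ) : ℝ) / n) atTop (𝓝 (1 / a)) := by
  have h : Tendsto (fun n : ℕ => ((⌊(1 / (a : ℝ)) * (n : ℝ)⌋₊ : ℕ) : ℝ) / (n : ℝ)) atTop
      (𝓝 (1 / (a : ℝ))) :=
    (tendsto_nat_floor_mul_div_atTop (R := ℝ) (a := 1 / (a : ℝ)) (by positivity)).comp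
      tendsto_natCast_atTop_atTop
  refine h.congr fun n => ?_
  have : (1 / (a : ℝ)) * (n : ℝ) = (n : ℝ) / a := by ring
  rw [this, Nat.floor_div_eq_div]

lemma tendsto_choose_div_pow (l : ℕ) :
    Tendsto (fun n : ℕ => (n.choose l : ℝ) / (n : ℝ) ^ l) atTop (𝓝 (1 / (l.factorial : ℝ))) := by
  have h := isEquivalent_choose l
  have hz : ∀ᶠ n : ℕ in atTop, ((n : ℝ) ^ l / (l.factorial : ℝ)) ≠ 0 := by
    filter_upwards [eventually_gt_atTop 0] with n hn
    have : (0 : ℝ) < n := by exact_mod_cast hn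
    positivity
  rw [Asymptotics.isEquivalent_iff_tendsto_one hz] at h
  have h2 := h.mul_const (1 / (l.factorial : ℝ))
  rw [one_mul] at h2
  refine h2.congr' ?_
  filter_upwards [eventually_gt_atTop 0] with n hn
  have : (0 : ℝ) < n := by exact_mod_cast hn
  have hf : (0 : ℝ) < (l.factorial : ℝ) := by exact_mod_cast l.factorial_pos
  simp only [Pi.div_apply]
  field_simp

lemma tendsto_X (l m r : ℕ) (hm : 0 < m) (hr : 0 < r) :
    Tendsto (fun n : ℕ => ((r : ℝ) ^ m * ((n / (m * r ^ m) : ℕ) : ℝ)) ^ l / (n.choose l : ℝ)) atTop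
      (𝓝 ((l.factorial : ℝ) / (m : ℝ) ^ l)) := by
  have hmr : (0 : ℝ) < m := by exact_mod_cast hm
  have hrr : (0 : ℝ) < r := by exact_mod_cast hr
  have hf : (0 : ℝ) < (l.factorial : ℝ) := by exact_mod_cast l.factorial_pos
  have h1 := tendsto_natDiv_div (m * r ^ m)
  have h2 := (h1.const_mul ((r : ℝ) ^ m)).pow l
  have h3 := h2.div (tendsto_choose_div_pow l) (by positivity)
  have e : ((r : ℝ) ^ m * (1 / ((m * r ^ m : ℕ) : ℝ))) ^ l / (1 / (l.factorial : ℝ))
      = (l.factorial : ℝ) / (m : ℝ) ^ l := by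
    have : (r : ℝ) ^ m * (1 / ((m * r ^ m : ℕ) : ℝ)) = 1 / m := by
      push_cast
      field_simp
    rw [this, div_pow, one_pow]
    field_simp
  rw [e] at h3
  refine h3.congr' ?_
  filter_upwards [eventually_ge_atTop (l + 1)] with n hn
  have hn0 : (0 : ℝ) < n := by
    have : 0 < n := by omega
    exact_mod_cast this
  have hc : (0 : ℝ) < (n.choose l : ℝ) := by exact_mod_cast Nat.choose_pos (by omega)
  simp only [Pi.div_apply]
  have : ((r : ℝ) ^ m * (((n / (m * r ^ m) : ℕ) : ℝ) / n)) ^ l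
      = ((r : ℝ) ^ m * ((n / (m * r ^ m) : ℕ) : ℝ)) ^ l / (n : ℝ) ^ l := by
    rw [← div_pow]; congr 1; ring
  rw [this]
  field_simp

lemma choose_mul_factorial_le (l m : ℕ) :
    (m.choose l : ℝ) * ((l.factorial : ℝ) / (m : ℝ) ^ l) ≤ 1 := by
  rcases Nat.eq_zero_or_pos m with hm | hm
  · subst hm
    rcases Nat.eq_zero_or_pos l with hl | hl
    · subst hl; simp
    · rw [Nat.choose_eq_zero_of_lt hl]; simp
  have hmr : (0 : ℝ) < (m : ℝ) ^ l := by
    have : (0 : ℝ) < m := by exact_mod_cast hm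
    positivity
  have hf : (0 : ℝ) < (l.factorial : ℝ) := by exact_mod_cast l.factorial_pos
  have h := Nat.choose_le_pow_div (α := ℝ) l m
  rw [le_div_iff₀ hf] at h
  rw [mul_div_assoc', div_le_one hmr]
  exact h

/-- choice of the number of parts -/
lemma exists_m (l : ℕ) (hl : 2 ≤ l) (ε : ℝ) (hε : 0 < ε) :
    ∃ m : ℕ, Odd m ∧ l ≤ m ∧ turanDensity l - ε ≤
      ((exN l m : ℝ) - m.choose (l - 1)) * ((l.factorial : ℝ) / (m : ℝ) ^ l) := by
  have hf : (0 : ℝ) < (l.factorial : ℝ) := by exact_mod_cast l.factorial_pos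
  have h1 : Tendsto (fun m : ℕ => (turanDensity l * (m.choose l : ℝ) - m.choose (l - 1)) *
      ((l.factorial : ℝ) / (m : ℝ) ^ l)) atTop (𝓝 (turanDensity l)) := by
    have h2 := ((tendsto_choose_div_pow l).const_mul (turanDensity l)).mul_const (l.factorial : ℝ)
    have h3 : Tendsto (fun m : ℕ => ((m.choose (l - 1) : ℝ) / (m : ℝ) ^ (l - 1)) *
        ((l.factorial : ℝ) * (1 / (m : ℝ)))) atTop
        (𝓝 (1 / ((l - 1).factorial : ℝ) * ((l.factorial : ℝ) * 0))) := by
      apply (tendsto_choose_div_pow (l - 1)).mul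
      apply Tendsto.const_mul
      exact tendsto_one_div_atTop_nhds_zero_nat
    have h4 := h2.sub h3
    have e : turanDensity l * (1 / (l.factorial : ℝ)) * (l.factorial : ℝ) -
        1 / ((l - 1).factorial : ℝ) * ((l.factorial : ℝ) * 0) = turanDensity l := by
      field_simp
      ring
    rw [e] at h4
    refine h4.congr' ?_
    filter_upwards [eventually_gt_atTop 0] with m hm
    have hmr : (0 : ℝ) < m := by exact_mod_cast hm
    have hpow : (m : ℝ) ^ l = (m : ℝ) ^ (l - 1) * m := by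
      rw [← pow_succ]; congr 1; omega
    rw [hpow]
    field_simp
  have h5 : ∀ᶠ m : ℕ in atTop, turanDensity l - ε <
      (turanDensity l * (m.choose l : ℝ) - m.choose (l - 1)) *
      ((l.factorial : ℝ) / (m : ℝ) ^ l) := h1.eventually (lt_mem_nhds (by linarith))
  obtain ⟨M, hM⟩ := eventually_atTop.1 h5
  refine ⟨2 * (M + l) + 1, ⟨M + l, rfl⟩, by omega, ?_⟩
  refine (hM (2 * (M + l) + 1) (by omega)).le.trans ?_
  apply mul_le_mul_of_nonneg_right _ (by positivity)
  have := turanDensity_le l (2 * (M + l) + 1) (by omega)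
  linarith

/-- **Main asymptotic bound.** -/
theorem main_bound (l : ℕ) (hl : 2 ≤ l) (ε : ℝ) (hε : 0 < ε) :
    ∀ᶠ n : ℕ in atTop, ∃ 𝒜 : Finset (Finset (Fin n)), IsFlatMax n l 𝒜 ∧
      (𝒜.card : ℝ) ≤ (1 - turanDensity l + (l : ℝ) / ((l : ℝ) ^ 2 - 1) + ε) * n.choose l := by
  obtain ⟨m, hmodd, hlm, hm⟩ := exists_m l hl (ε / 3) (by positivity)
  have hm0 : 0 < m := by omega
  have : NeZero m := ⟨hm0.ne'⟩
  obtain ⟨r, hr⟩ := exists_nat_gt (((l : ℝ) + 1) ^ 2 * m * (3 / ε + 1))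
  have hmr : (0 : ℝ) < m := by exact_mod_cast hm0
  have hA : (0 : ℝ) < ((l : ℝ) + 1) ^ 2 * m := by positivity
  have hrpos : (0 : ℝ) < r := lt_of_le_of_lt (by positivity) hr
  have hr0 : 0 < r := by exact_mod_cast hrpos
  have : NeZero r := ⟨hr0.ne'⟩
  have hr1 : ((l : ℝ) + 1) ^ 2 * m ≤ r := by
    have : ((l : ℝ) + 1) ^ 2 * m * 1 ≤ ((l : ℝ) + 1) ^ 2 * m * (3 / ε + 1) := by
      apply mul_le_mul_of_nonneg_left _ hA.le
      have : 0 < 3 / ε := by positivity
      linarith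
    linarith
  have hr1' : (l + 1) ^ 2 * m ≤ r := by exact_mod_cast hr1
  have hη1 : ((l : ℝ) + 1) ^ 2 * m / r ≤ ε / 3 := by
    rw [div_le_iff₀ hrpos]
    have h1 : ((l : ℝ) + 1) ^ 2 * m * (3 / ε) ≤ r := by
      have : ((l : ℝ) + 1) ^ 2 * m * (3 / ε) ≤ ((l : ℝ) + 1) ^ 2 * m * (3 / ε + 1) := by
        apply mul_le_mul_of_nonneg_left _ hA.le
        linarith
      linarith
    calc ((l : ℝ) + 1) ^ 2 * m = (ε / 3) * (((l : ℝ) + 1) ^ 2 * m * (3 / ε)) := by
          field_simp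
      _ ≤ ε / 3 * r := mul_le_mul_of_nonneg_left h1 (by positivity)
  have hη1' : 0 ≤ ((l : ℝ) + 1) ^ 2 * m / r := by positivity
  obtain ⟨D, hD⟩ := exists_dat l m
  set h : ℝ := (exN l m : ℝ) with hh
  set b : ℝ := (m.choose (l - 1) : ℝ) with hb
  set X : ℝ := (l.factorial : ℝ) / (m : ℝ) ^ l with hX
  set c : ℝ := (l : ℝ) / (((l : ℝ) - 1) * ((l : ℝ) + 1)) with hc
  set η1 : ℝ := ((l : ℝ) + 1) ^ 2 * m / r with hη1def
  have hl1 : (0 : ℝ) < (l : ℝ) - 1 := by
    have : (2 : ℝ) ≤ l := by exact_mod_cast hl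
    linarith
  have hc0 : 0 ≤ c := by rw [hc]; positivity
  have hX0 : 0 ≤ X := by rw [hX]; positivity
  have hmul : 0 < m * r ^ m := Nat.mul_pos hm0 (pow_pos hr0 m)
  -- the limit of the upper bound
  have hXn := tendsto_X l m r hm0 hr0
  have hRn : Tendsto (fun n : ℕ => n / (m * r ^ m)) atTop atTop :=
    Nat.tendsto_div_const_atTop hmul.ne'
  have hη2 : Tendsto (fun n : ℕ => ((l : ℝ) ^ 2 + l) / ((n / (m * r ^ m) : ℕ) : ℝ)) atTop (𝓝 0) := by
    apply Tendsto.div_atTop tendsto_const_nhds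
    exact tendsto_natCast_atTop_atTop.comp hRn
  have hlim : Tendsto (fun n : ℕ => 1 + c * m.choose l *
      (((r : ℝ) ^ m * ((n / (m * r ^ m) : ℕ) : ℝ)) ^ l / (n.choose l : ℝ)) -
      (h - b) * (((r : ℝ) ^ m * ((n / (m * r ^ m) : ℕ) : ℝ)) ^ l / (n.choose l : ℝ) * (1 - η1) *
        (1 - ((l : ℝ) ^ 2 + l) / ((n / (m * r ^ m) : ℕ) : ℝ)))) atTop
      (𝓝 (1 + c * m.choose l * X - (h - b) * (X * (1 - η1) * (1 - 0)))) := by
    apply Tendsto.sub
    · exact tendsto_const_nhds.add (hXn.const_mul _)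
    · apply Tendsto.const_mul
      exact (hXn.mul_const _).mul (tendsto_const_nhds.sub hη2)
  have hval : 1 + c * m.choose l * X - (h - b) * (X * (1 - η1) * (1 - 0)) <
      1 - turanDensity l + (l : ℝ) / ((l : ℝ) ^ 2 - 1) + ε := by
    have e1 : c * m.choose l * X ≤ c := by
      have := choose_mul_factorial_le l m
      calc c * m.choose l * X = c * (m.choose l * X) := by ring
        _ ≤ c * 1 := mul_le_mul_of_nonneg_left this hc0
        _ = c := mul_one c
    have e2 : c = (l : ℝ) / ((l : ℝ) ^ 2 - 1) := by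
      rw [hc]; congr 1; ring
    have e3 : (h - b) * X ≤ 1 := by
      have h1 : h ≤ m.choose l := by
        obtain ⟨H, hH, hHc⟩ := exN_attained l m
        have : H ⊆ (univ : Finset (Fin m)).powersetCard l := fun e he =>
          mem_powersetCard.2 ⟨subset_univ _, hH.1 e he⟩
        have := card_le_card this
        rw [card_powersetCard, card_univ, Fintype.card_fin, hHc] at this
        rw [hh]; exact_mod_cast this
      have hb0 : 0 ≤ b := by rw [hb]; positivity
      have := choose_mul_factorial_le l m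
      calc (h - b) * X ≤ m.choose l * X := mul_le_mul_of_nonneg_right (by linarith) hX0
        _ ≤ 1 := this
    have e4 : (h - b) * X * η1 ≤ ε / 3 := by
      rcases le_or_gt 0 ((h - b) * X) with h0 | h0
      · calc (h - b) * X * η1 ≤ 1 * η1 := mul_le_mul_of_nonneg_right e3 hη1'
          _ ≤ ε / 3 := by rw [one_mul]; exact hη1
      · have : (h - b) * X * η1 ≤ 0 := mul_nonpos_of_nonpos_of_nonneg h0.le hη1'
        linarith
    have e5 : (h - b) * (X * (1 - η1) * (1 - 0)) = (h - b) * X - (h - b) * X * η1 := by ring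
    rw [e5, ← e2]
    linarith
  have hev := hlim.eventually (gt_mem_nhds hval)
  filter_upwards [hev, hRn.eventually (eventually_ge_atTop (l ^ 2 + l)),
    eventually_ge_atTop l] with n hn hRl hln
  set R : ℕ := n / (m * r ^ m) with hR
  have hRpos : 0 < R := by
    have : 0 < l ^ 2 + l := by positivity
    omega
  have : NeZero R := ⟨hRpos.ne'⟩
  obtain ⟨𝒜, h1, h2⟩ := construction (m := m) (r := r) (R := R) D hl hmodd hr1' (n := n)
    (by
      have : m * (r ^ m * R) = (m * r ^ m) * (n / (m * r ^ m)) := by rw [hR]; ring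
      rw [this]
      exact Nat.mul_div_le n _) hln hRl
  refine ⟨𝒜, h1, h2.trans ?_⟩
  have hC : (0 : ℝ) < (n.choose l : ℝ) := by exact_mod_cast Nat.choose_pos hln
  rw [hD]
  have e6 : (n.choose l : ℝ) + (l : ℝ) / ((l - 1) * (l + 1)) * m.choose l * ((r : ℝ) ^ m * R) ^ l
        - ((exN l m : ℝ) - m.choose (l - 1)) * (((r : ℝ) ^ m * R) ^ l *
          (1 - (l + 1) ^ 2 * m / r) * (1 - (l ^ 2 + l) / R)) =
      (1 + c * m.choose l * (((r : ℝ) ^ m * (R : ℝ)) ^ l / (n.choose l : ℝ)) -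
      (h - b) * (((r : ℝ) ^ m * (R : ℝ)) ^ l / (n.choose l : ℝ) * (1 - η1) *
        (1 - ((l : ℝ) ^ 2 + l) / (R : ℝ)))) * n.choose l := by
    rw [hc, hh, hb, hη1def]
    field_simp
  rw [e6]
  exact mul_le_mul_of_nonneg_right hn.le hC.le

end Pool.Agent.Helper85.FT
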