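import Mathlib
import Pool.Agent.Helper33.Flat

/-!
# Flat maximal antichains from Turan hypergraphs: the construction and its cliques
-/

set_option autoImplicit false
set_option linter.unusedSectionVars false

open Finset
open scoped FinsetFamily

namespace Pool.Agent.Helper85.FT

open Pool.Agent.Helper33.Flat

/-- vertices: a part in `ZMod m`, a vector of labels in `ZMod r`, and a label in `ZMod R`,
read as a number below `R`. -/
abbrev Vx (m r R : ℕ) := ZMod m × ((ZMod m → ZMod r) × ZMod R)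

section defs

variable {m r R : ℕ} [NeZero m]

/-- the type of a set of vertices: the set of parts it meets -/
def typ (z : Finset (Vx m r R)) : Finset (ZMod m) := z.image Prod.fst

/-- the label number `i` of a vertex -/
def al (i : ZMod m) (p : Vx m r R) : ZMod r := p.2.1 i

/-- the numerical label of a vertex -/
def ga (p : Vx m r R) : ℕ := p.2.2.val

/-- `y` is marked by `i` -/
def Mk (i : ZMod m) (y : Finset (Vx m r R)) : Prop := ∑ p ∈ y, al i p = 0

/-- the condition on the numerical labels -/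
def gc (j : ZMod m) (z : Finset (Vx m r R)) : Prop :=
  ∀ p ∈ z, p.1 = j → (∀ p' ∈ z, p'.1 ≠ j → ga p' < ga p) ∧ ga p ∣ ∑ p' ∈ z.erase p, ga p'

end defs

/-- A hypergraph without complete `(l+1)`-sets, with a chosen non-edge in every `(l+1)`-set. -/
structure Dat (m l : ℕ) where
  H : Finset (Finset (ZMod m))
  card_H : ∀ e ∈ H, e.card = l
  a : Finset (ZMod m) → ZMod m
  a_mem : ∀ Q : Finset (ZMod m), Q.card = l + 1 → a Q ∈ Q
  a_not : ∀ Q : Finset (ZMod m), Q.card = l + 1 → Q.erase (a Q) ∉ H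

variable {m r R l : ℕ} [NeZero m]

/-- special directions of the design with label `j` on the type `Q` -/
def Sp (D : Dat m l) (Q : Finset (ZMod m)) (j : ZMod m) : Finset (ZMod m) :=
  insert j ((Q.filter fun i => Q.erase i ∉ D.H).erase (D.a Q))

/-- the types used: `(l+1)`-sets with sum zero -/
def IsSys (l : ℕ) (Q : Finset (ZMod m)) : Prop := Q.card = l + 1 ∧ ∑ i ∈ Q, i = 0

def IsA (D : Dat m l) (z : Finset (Vx m r R)) : Prop :=
  z.card = l ∧ typ z ∈ D.H ∧ ∀ p ∈ z, ∀ i, ¬ Mk i (z.erase p)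

def IsB1 (D : Dat m l) (z : Finset (Vx m r R)) : Prop :=
  z.card = l ∧ ∃ Q : Finset (ZMod m), IsSys l Q ∧ typ z = Q.erase (D.a Q) ∧
    ∃ j ∈ Q.erase (D.a Q),
      (∀ p ∈ z, ∀ i, Mk i (z.erase p) ↔ (p.1 = i ∧ i ∈ Sp D Q j)) ∧
      (∀ i, i ∉ Sp D Q j → Mk i z) ∧ gc j z

def IsB2 (D : Dat m l) (z : Finset (Vx m r R)) : Prop :=
  z.card = l ∧ ∃ Q : Finset (ZMod m), IsSys l Q ∧ ∃ i ∈ Q.erase (D.a Q), typ z = Q.erase i ∧
    ∀ p ∈ z, ∀ i', Mk i' (z.erase p) ↔ (p.1 = D.a Q ∧ i' = i)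

def InH (D : Dat m l) (z : Finset (Vx m r R)) : Prop := IsA D z ∨ IsB1 D z ∨ IsB2 D z

open Classical in
/-- the family of cliques -/
noncomputable def KK (D : Dat m l) (r R : ℕ) [NeZero r] [NeZero R] :
    Finset (Finset (Vx m r R)) :=
  Finset.univ.filter fun C => C.card = l + 1 ∧ ∀ p ∈ C, InH D (C.erase p)

section basic

variable [NeZero r] [NeZero R]

lemma InH_of_mem_shadow (D : Dat m l) {X : Finset (Vx m r R)} (hX : X ∈ ∂ (KK D r R)) :
    InH D X := by
  classical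
  obtain ⟨s, hs, a, ha, rfl⟩ := mem_shadow_iff.1 hX
  exact (mem_filter.1 hs).2.2 a ha

lemma KK_closed (D : Dat m l) : Closed l (KK D r R) := by
  classical
  refine ⟨fun Y hY => (mem_filter.1 hY).2.1, fun Y hYc hY => ?_⟩
  exact mem_filter.2 ⟨mem_univ _, hYc, fun p hp => InH_of_mem_shadow D (hY p hp)⟩

end basic

lemma mem_typ {z : Finset (Vx m r R)} {p : Vx m r R} (hp : p ∈ z) : p.1 ∈ typ z :=
  mem_image_of_mem _ hp

lemma exists_of_mem_typ {z : Finset (Vx m r R)} {i : ZMod m} (hi : i ∈ typ z) :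
    ∃ p ∈ z, p.1 = i := by
  obtain ⟨p, hp, h⟩ := mem_image.1 hi
  exact ⟨p, hp, h⟩

lemma InH_card {D : Dat m l} {z : Finset (Vx m r R)} (h : InH D z) :
    z.card = l ∧ (typ z).card = l := by
  rcases h with ⟨h1, h2, -⟩ | ⟨h1, Q, hQ, h2, -⟩ | ⟨h1, Q, hQ, i, hi, h2, -⟩
  · exact ⟨h1, D.card_H _ h2⟩
  · refine ⟨h1, ?_⟩
    rw [h2, card_erase_of_mem (D.a_mem Q hQ.1), hQ.1]; rfl
  · refine ⟨h1, ?_⟩
    rw [h2, card_erase_of_mem (mem_of_mem_erase hi), hQ.1]; rfl

/-- all `l`-subsets in `H` implies transversal -/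
lemma inj_of_InH {D : Dat m l} (hl : 2 ≤ l) {C : Finset (Vx m r R)} (hC : C.card = l + 1)
    (h : ∀ p ∈ C, InH D (C.erase p)) : ∀ p ∈ C, ∀ q ∈ C, p.1 = q.1 → p = q := by
  intro p hp q hq hpq
  by_contra hne
  have h3 : 2 < C.card := by omega
  obtain ⟨s, hs⟩ : ∃ s, s ∈ (C.erase p).erase q := by
    apply Finset.card_pos.1
    rw [card_erase_of_mem (mem_erase.2 ⟨fun h => hne h.symm, hq⟩), card_erase_of_mem hp]
    omega
  rw [mem_erase, mem_erase] at hs
  obtain ⟨hsq, hsp, hsC⟩ := hs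
  have h4 := InH_card (h s hsC)
  have hinj : Set.InjOn Prod.fst ((C.erase s : Finset (Vx m r R)) : Set (Vx m r R)) := by
    apply Finset.card_image_iff.1
    rw [h4.1]; exact h4.2
  exact hne (hinj (by simp [hp, Ne.symm hsp]) (by simp [hq, Ne.symm hsq]) hpq)

lemma typ_erase {C : Finset (Vx m r R)} (hinj : ∀ p ∈ C, ∀ q ∈ C, p.1 = q.1 → p = q)
    {p : Vx m r R} (hp : p ∈ C) : typ (C.erase p) = (typ C).erase p.1 := by
  ext i
  rw [mem_erase]
  constructor
  · intro hi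
    obtain ⟨q, hq, rfl⟩ := exists_of_mem_typ hi
    rw [mem_erase] at hq
    exact ⟨fun h => hq.1 (hinj q hq.2 p hp h), mem_typ hq.2⟩
  · rintro ⟨hi, hi'⟩
    obtain ⟨q, hq, rfl⟩ := exists_of_mem_typ hi'
    exact mem_typ (mem_erase.2 ⟨fun h => hi (by rw [h]), hq⟩)

lemma erase_comm' {C : Finset (Vx m r R)} (p q : Vx m r R) :
    (C.erase p).erase q = (C.erase q).erase p := Finset.erase_right_comm

lemma eq_of_erase_eq {Q Q' : Finset (ZMod m)} {i : ZMod m} (hi : i ∈ Q) (hi' : i ∈ Q')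
    (h : Q.erase i = Q'.erase i) : Q = Q' := by
  rw [← insert_erase hi, h, insert_erase hi']

lemma sum_erase_sys {Q : Finset (ZMod m)} (hQ : IsSys l Q) {i : ZMod m} (hi : i ∈ Q) :
    ∑ u ∈ Q.erase i, u = -i := by
  have h := Finset.add_sum_erase Q (fun u => u) hi
  rw [hQ.2] at h
  exact (neg_eq_of_add_eq_zero_right h).symm

/-- two system sets with a common `l`-subset coincide -/
lemma sys_unique {Q Q' : Finset (ZMod m)} (hQ : IsSys l Q) (hQ' : IsSys l Q') {i i' : ZMod m}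
    (hi : i ∈ Q) (hi' : i' ∈ Q') (h : Q.erase i = Q'.erase i') : i = i' ∧ Q = Q' := by
  have h1 := sum_erase_sys hQ hi
  have h2 := sum_erase_sys hQ' hi'
  rw [h] at h1
  have h3 : i = i' := by
    have := h1.symm.trans h2
    exact neg_injective this
  subst h3
  exact ⟨rfl, eq_of_erase_eq hi hi' h⟩

/-- **The cliques of `H`.** -/
theorem clique_structure {D : Dat m l} (hl : 2 ≤ l) {C : Finset (Vx m r R)} (hC : C.card = l + 1)
    (h : ∀ p ∈ C, InH D (C.erase p)) :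
    ∃ p ∈ C, ∃ j : ZMod m, IsSys l (typ C) ∧ p.1 = D.a (typ C) ∧ j ∈ (typ C).erase p.1 ∧
      (∀ q ∈ C.erase p, ∀ i, Mk i ((C.erase p).erase q) ↔ (q.1 = i ∧ i ∈ Sp D (typ C) j)) ∧
      (∀ i, i ∉ Sp D (typ C) j → Mk i (C.erase p)) ∧ gc j (C.erase p) := by
  have hinj := inj_of_InH hl hC h
  have hty : ∀ p ∈ C, typ (C.erase p) = (typ C).erase p.1 := fun p hp => typ_erase hinj hp
  have hTc : (typ C).card = l + 1 := by
    rw [← hC]
    exact Finset.card_image_iff.2 (fun p hp q hq hpq => hinj p hp q hq hpq)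
  -- the two main cases
  have caseB1 : ∀ p ∈ C, IsB1 D (C.erase p) → p.1 = D.a (typ C) → IsSys l (typ C) →
      ∃ p ∈ C, ∃ j : ZMod m, IsSys l (typ C) ∧ p.1 = D.a (typ C) ∧ j ∈ (typ C).erase p.1 ∧
      (∀ q ∈ C.erase p, ∀ i, Mk i ((C.erase p).erase q) ↔ (q.1 = i ∧ i ∈ Sp D (typ C) j)) ∧
      (∀ i, i ∉ Sp D (typ C) j → Mk i (C.erase p)) ∧ gc j (C.erase p) := by
    rintro p hp ⟨-, Q, hQ, htQ, j, hj, h1, h2, h3⟩ hpa hsys
    have hQT : Q = typ C := by
      rw [hty p hp] at htQ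
      exact (sys_unique hQ hsys (D.a_mem Q hQ.1) (mem_typ hp) htQ.symm).2
    subst hQT
    refine ⟨p, hp, j, hsys, hpa, ?_, h1, h2, h3⟩
    rw [hpa]; exact hj
  by_cases hA : ∀ p ∈ C, IsA D (C.erase p)
  · exfalso
    have ha := D.a_mem (typ C) hTc
    obtain ⟨p, hp, hpa⟩ := exists_of_mem_typ ha
    have := (hA p hp).2.1
    rw [hty p hp, hpa] at this
    exact D.a_not _ hTc this
  push Not at hA
  obtain ⟨p0, hp0, hnA⟩ := hA
  rcases h p0 hp0 with hA | hB1 | hB2
  · exact absurd hA hnA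
  · -- `C - p0` is of type B1
    have hB1' := hB1
    obtain ⟨-, Q, hQ, htQ, j, hj, h1, h2, h3⟩ := hB1
    have hjt : j ∈ typ (C.erase p0) := by rw [htQ]; exact hj
    obtain ⟨pj, hpj, hpj1⟩ := exists_of_mem_typ hjt
    have hpjC : pj ∈ C := mem_of_mem_erase hpj
    have hmark : Mk j ((C.erase pj).erase p0) := by
      rw [erase_comm']
      exact (h1 pj hpj j).2 ⟨hpj1, mem_insert_self _ _⟩
    have hp0w : p0 ∈ C.erase pj := mem_erase.2 ⟨fun h => (mem_erase.1 hpj).1 h.symm, hp0⟩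
    rcases h pj hpjC with hA' | hB1'' | hB2'
    · exact absurd hmark (hA'.2.2 p0 hp0w j)
    · obtain ⟨-, Q', hQ', htQ', j', hj', h1', -, -⟩ := hB1''
      have := (h1' p0 hp0w j).1 hmark
      exact absurd (hinj p0 hp0 pj hpjC (this.1.trans hpj1.symm))
        (fun h => (mem_erase.1 hpj).1 h.symm)
    · obtain ⟨-, Q', hQ', i', hi', htQ', h1'⟩ := hB2'
      have := (h1' p0 hp0w j).1 hmark
      obtain ⟨hp0a, hji⟩ := this
      subst hji
      have hTQ' : typ C = Q' := by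
        rw [hty pj hpjC, hpj1] at htQ'
        refine eq_of_erase_eq ?_ (mem_of_mem_erase hi') htQ'
        rw [← hpj1]; exact mem_typ hpjC
      rw [← hTQ'] at hp0a hQ'
      exact caseB1 p0 hp0 hB1' hp0a hQ'
  · obtain ⟨-, Q, hQ, i, hi, htQ, h1⟩ := hB2
    have hai : D.a Q ∈ Q.erase i := by
      rw [mem_erase] at hi ⊢
      exact ⟨fun h => hi.1 h.symm, D.a_mem Q hQ.1⟩
    have hat : D.a Q ∈ typ (C.erase p0) := by rw [htQ]; exact hai
    obtain ⟨pa, hpa, hpa1⟩ := exists_of_mem_typ hat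
    have hpaC : pa ∈ C := mem_of_mem_erase hpa
    have hmark : Mk i ((C.erase pa).erase p0) := by
      rw [erase_comm']
      exact (h1 pa hpa i).2 ⟨hpa1, rfl⟩
    have hp0w : p0 ∈ C.erase pa := mem_erase.2 ⟨fun h => (mem_erase.1 hpa).1 h.symm, hp0⟩
    have hne : p0.1 ≠ pa.1 := fun h => (mem_erase.1 hpa).1 (hinj p0 hp0 pa hpaC h).symm
    rcases h pa hpaC with hA' | hB1'' | hB2'
    · exact absurd hmark (hA'.2.2 p0 hp0w i)
    · have hB1s := hB1''
      obtain ⟨-, Q', hQ', htQ', j', hj', h1', -, -⟩ := hB1''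
      have := (h1' p0 hp0w i).1 hmark
      have hTQ : typ C = Q := by
        rw [hty p0 hp0, this.1] at htQ
        refine eq_of_erase_eq ?_ (mem_of_mem_erase hi) htQ
        rw [← this.1]; exact mem_typ hp0
      rw [← hTQ] at hQ hpa1
      exact caseB1 pa hpaC hB1s hpa1 hQ
    · exfalso
      obtain ⟨-, Q', hQ', i', hi', htQ', h1'⟩ := hB2'
      have := (h1' p0 hp0w i).1 hmark
      obtain ⟨hp0a, hii⟩ := this
      subst hii
      rw [hty p0 hp0] at htQ
      rw [hty pa hpaC] at htQ'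
      have e1 : ∑ u ∈ (typ C).erase p0.1, u = ∑ u ∈ (typ C).erase pa.1, u := by
        rw [htQ, htQ', sum_erase_sys hQ (mem_of_mem_erase hi),
          sum_erase_sys hQ' (mem_of_mem_erase hi')]
      have e2 := Finset.add_sum_erase (typ C) (fun u => u) (mem_typ hp0)
      have e3 := Finset.add_sum_erase (typ C) (fun u => u) (mem_typ hpaC)
      rw [e1] at e2
      have := e2.trans e3.symm
      exact hne (add_right_cancel this)

end Pool.Agent.Helper85.FT
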