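import Pool.Agent.Helper85.FT.Param

/-!
# Counting solutions
-/

set_option autoImplicit false
set_option linter.unusedSectionVars false

open Finset

namespace Pool.Agent.Helper85.FT

/-- fibres of a function that moves along a direction -/
lemma fiber_count {s : ℕ} [NeZero s] {G : Type*} [AddCommGroup G] [Module (ZMod s) G]
    [DecidableEq G] (A : Finset G) (w : G) (hA : ∀ f ∈ A, ∀ c : ZMod s, f + c • w ∈ A)
    (ψ : G → ZMod s) (hψ : ∀ f (c : ZMod s), ψ (f + c • w) = ψ f + c) :
    (A.filter fun f => ψ f = 0).card * s = A.card := by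
  have h : ((A.filter fun f => ψ f = 0) ×ˢ (univ : Finset (ZMod s))).card = A.card := by
    apply Finset.card_bij' (i := fun x _ => x.1 + x.2 • w)
      (j := fun g _ => (g + (-(ψ g)) • w, ψ g))
    · intro x hx
      rw [mem_product, mem_filter] at hx
      exact hA _ hx.1.1 _
    · intro g hg
      rw [mem_product, mem_filter]
      refine ⟨⟨hA _ hg _, ?_⟩, mem_univ _⟩
      show ψ (g + (-(ψ g)) • w) = 0
      rw [hψ]; ring
    · rintro ⟨f, c⟩ hx
      rw [mem_product, mem_filter] at hx
      have h1 : ψ (f + c • w) = c := by rw [hψ, hx.1.2]; ring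
      simp only [h1]
      refine Prod.ext ?_ rfl
      simp only
      rw [neg_smul]; abel
    · intro g hg
      simp only
      rw [neg_smul]; abel
  rw [card_product, card_univ, ZMod.card] at h
  exact h

lemma card_swap_filter {ι κ β : Type*} [Fintype ι] [Fintype κ] [Fintype β] [DecidableEq ι]
    [DecidableEq κ] [DecidableEq β] (P : κ → (ι → β) → Prop) [∀ k, DecidablePred (P k)]
    [DecidablePred fun α : ι → κ → β => ∀ k, P k (fun u => α u k)] :
    (univ.filter (fun α : ι → κ → β => ∀ k, P k (fun u => α u k))).card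
      = ∏ k, (univ.filter (P k)).card := by
  rw [← Fintype.card_piFinset]
  refine Finset.card_bij' (fun α _ k u => α u k) (fun β _ u k => β k u) ?_ ?_ ?_ ?_
  · intro α hα
    rw [Fintype.mem_piFinset]
    intro k
    rw [mem_filter] at hα ⊢
    exact ⟨mem_univ _, hα.2 k⟩
  · intro β hβ
    rw [Fintype.mem_piFinset] at hβ
    rw [mem_filter]
    exact ⟨mem_univ _, fun k => (mem_filter.1 (hβ k)).2⟩
  · intro α _; rfl
  · intro β _; rfl

lemma sum_single_mem {ι : Type*} [DecidableEq ι] {s : ℕ} (U : Finset ι) (u : ι) (c : ZMod s) :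
    ∑ x ∈ U, (Pi.single u c : ι → ZMod s) x = if u ∈ U then c else 0 := by
  simp only [Pi.single_apply]
  rw [Finset.sum_ite_eq']

lemma count_one {ι : Type*} [Fintype ι] [DecidableEq ι] {s : ℕ} [NeZero s] (U : Finset ι)
    (hU : U.Nonempty) {N : ℕ} (hN : Fintype.card ι = N + 1) :
    (univ.filter fun f : ι → ZMod s => ∑ x ∈ U, f x = 0).card = s ^ N := by
  obtain ⟨u, hu⟩ := hU
  have h := fiber_count (s := s) (univ : Finset (ι → ZMod s)) (Pi.single u 1)
    (fun _ _ _ => mem_univ _) (fun f => ∑ x ∈ U, f x) (by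
      intro f c
      simp only [Pi.add_apply, Pi.smul_apply, sum_add_distrib, smul_eq_mul, ← mul_sum,
        sum_single_mem, hu, if_true, mul_one])
  rw [card_univ, Fintype.card_fun, ZMod.card, hN, pow_succ] at h
  exact Nat.eq_of_mul_eq_mul_right (Nat.pos_of_ne_zero (NeZero.ne s)) h

/-- a direction that moves the sum over `U'` but not the sum over `U` -/
lemma exists_direction {ι : Type*} [DecidableEq ι] {s : ℕ} (U U' : Finset ι)
    (hU' : U'.Nonempty) (hne : U' ≠ U) :
    ∃ w : ι → ZMod s, ∑ x ∈ U, w x = 0 ∧ ∑ x ∈ U', w x = 1 := by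
  by_cases hsub : U' ⊆ U
  · obtain ⟨u1, hu1⟩ := hU'
    obtain ⟨u2, hu2, hu2'⟩ : ∃ u2 ∈ U, u2 ∉ U' := by
      by_contra hcon
      push Not at hcon
      exact hne (Subset.antisymm hsub hcon)
    refine ⟨Pi.single u1 1 - Pi.single u2 1, ?_, ?_⟩
    · simp only [Pi.sub_apply, sum_sub_distrib, sum_single_mem, hsub hu1, hu2, if_true, sub_self]
    · simp only [Pi.sub_apply, sum_sub_distrib, sum_single_mem, hu1, hu2', if_true, if_false,
        sub_zero]
  · obtain ⟨u1, hu1, hu1'⟩ : ∃ u1 ∈ U', u1 ∉ U := by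
      by_contra hcon
      push Not at hcon
      exact hsub hcon
    refine ⟨Pi.single u1 1, ?_, ?_⟩
    · simp only [sum_single_mem, hu1', if_false]
    · simp only [sum_single_mem, hu1, if_true]

variable {m r R l : ℕ} [NeZero m] [NeZero r] [NeZero R]

/-- the support of the linear condition number `i` -/
def Ui (D : Dat m l) (Q : Finset (ZMod m)) (a : Q) (j i : ZMod m) : Finset Q :=
  univ.filter (fun u : Q => u ≠ a ∧ ¬ (u.1 = i ∧ i ∈ Sp D Q j))

lemma Ui_nonempty {D : Dat m l} {Q : Finset (ZMod m)} (hl : 2 ≤ l) (hQ : Q.card = l + 1) (a : Q)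
    (j i : ZMod m) : (Ui D Q a j i).Nonempty := by
  have h1 : (univ.filter fun u : Q => u.1 = i).card ≤ 1 := by
    rw [card_le_one]
    intro x hx y hy
    exact Subtype.ext ((mem_filter.1 hx).2.trans (mem_filter.1 hy).2.symm)
  have h2 : (((univ : Finset Q).erase a) \ (univ.filter fun u : Q => u.1 = i)).Nonempty := by
    rw [← card_pos]
    have := le_card_sdiff (univ.filter fun u : Q => u.1 = i) ((univ : Finset Q).erase a)
    rw [card_erase_univ hQ] at this
    omega
  obtain ⟨u, hu⟩ := h2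
  rw [mem_sdiff, mem_erase, mem_filter] at hu
  exact ⟨u, mem_filter.2 ⟨mem_univ _, hu.1.1, fun h => hu.2 ⟨mem_univ _, h.1⟩⟩⟩

open Classical in
/-- solutions of the linear conditions -/
noncomputable def LinS (D : Dat m l) (r : ℕ) [NeZero r] (Q : Finset (ZMod m)) (a : Q)
    (j : ZMod m) : Finset (Q → ZMod m → ZMod r) := univ.filter fun α => lin D Q a j α

open Classical in
/-- clean solutions of the linear conditions -/
noncomputable def CleanS (D : Dat m l) (r : ℕ) [NeZero r] (Q : Finset (ZMod m)) (a : Q)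
    (j : ZMod m) : Finset (Q → ZMod m → ZMod r) :=
  univ.filter fun α => lin D Q a j α ∧ clean D Q a j α

open Classical in
/-- solutions of the numerical conditions -/
noncomputable def GS (R : ℕ) [NeZero R] (Q : Finset (ZMod m)) (a j : Q) :
    Finset (Q → ZMod R) := univ.filter fun γ => gcond Q a j γ

lemma card_LinS {D : Dat m l} {Q : Finset (ZMod m)} (hl : 2 ≤ l) (hQ : Q.card = l + 1) (a : Q)
    (j : ZMod m) : (LinS D r Q a j).card = (r ^ l) ^ m := by
  classical
  have h : (LinS D r Q a j).card = (univ.filter (fun α : Q → ZMod m → ZMod r =>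
      ∀ i, ∑ u ∈ Ui D Q a j i, α u i = 0)).card := by
    congr 1
    ext α
    rw [LinS, mem_filter, mem_filter]
    exact Iff.rfl
  have h2 := card_swap_filter (ι := Q) (κ := ZMod m) (β := ZMod r)
    (fun i f => ∑ u ∈ Ui D Q a j i, f u = 0)
  rw [h, h2]
  rw [prod_congr rfl (fun i _ => count_one (Ui D Q a j i) (Ui_nonempty hl hQ a j i)
    (N := l) (by rw [Fintype.card_coe, hQ]))]
  rw [prod_const, card_univ, ZMod.card]

lemma bad_count {D : Dat m l} {Q : Finset (ZMod m)} (hl : 2 ≤ l) (hQ : Q.card = l + 1) (a : Q)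
    (j : ZMod m) (u v : Q) (huv : u ≠ v) (i : ZMod m)
    (hn : ¬ (i ∈ Sp D Q j ∧ ((u = a ∧ v.1 = i) ∨ (v = a ∧ u.1 = i)))) :
    ((LinS D r Q a j).filter fun α => ∑ w ∈ (univ.erase u).erase v, α w i = 0).card * r
      = (LinS D r Q a j).card := by
  classical
  have hne : (univ.erase u).erase v ≠ Ui D Q a j i := by
    intro heq
    have ha : a ∉ (univ.erase u).erase v := by
      rw [heq]
      exact fun h => (mem_filter.1 h).2.1 rfl
    have ha' : a = u ∨ a = v := by
      by_contra hcon
      push Not at hcon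
      exact ha (mem_erase.2 ⟨hcon.2, mem_erase.2 ⟨hcon.1, mem_univ _⟩⟩)
    rcases ha' with rfl | rfl
    · have hv : v ∉ Ui D Q a j i := by
        rw [← heq]; exact fun h => (mem_erase.1 h).1 rfl
      have : v.1 = i ∧ i ∈ Sp D Q j := by
        by_contra hcon
        exact hv (mem_filter.2 ⟨mem_univ _, Ne.symm huv, hcon⟩)
      exact hn ⟨this.2, Or.inl ⟨rfl, this.1⟩⟩
    · have hu : u ∉ Ui D Q a j i := by
        rw [← heq]; exact fun h => (mem_erase.1 (mem_erase.1 h).2).1 rfl
      have : u.1 = i ∧ i ∈ Sp D Q j := by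
        by_contra hcon
        exact hu (mem_filter.2 ⟨mem_univ _, huv, hcon⟩)
      exact hn ⟨this.2, Or.inr ⟨rfl, this.1⟩⟩
  have hne' : ((univ.erase u).erase v : Finset Q).Nonempty := by
    rw [← card_pos, card_erase_of_mem (mem_erase.2 ⟨Ne.symm huv, mem_univ _⟩),
      card_erase_univ hQ]
    omega
  obtain ⟨w, hw1, hw2⟩ := exists_direction (s := r) (Ui D Q a j i) _ hne' hne
  have h := fiber_count (s := r) (LinS D r Q a j) (fun x i' => if i' = i then w x else 0)
    (by
      intro α hα c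
      unfold LinS at hα ⊢
      rw [mem_filter] at hα ⊢
      refine ⟨mem_univ _, fun i' => ?_⟩
      have h1 := hα.2 i'
      simp only [Pi.add_apply, Pi.smul_apply, sum_add_distrib, h1, zero_add, smul_eq_mul,
        ← mul_sum]
      by_cases hi : i' = i
      · subst hi
        simp only [if_true]
        have : ∑ x ∈ univ.filter (fun u : Q => u ≠ a ∧ ¬ (u.1 = i' ∧ i' ∈ Sp D Q j)), w x = 0 :=
          hw1
        rw [this, mul_zero]
      · simp only [hi, if_false, sum_const_zero, mul_zero])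
    (fun α => ∑ w ∈ (univ.erase u).erase v, α w i)
    (by
      intro α c
      simp only [Pi.add_apply, Pi.smul_apply, sum_add_distrib, smul_eq_mul, ← mul_sum,
        if_true, hw2, mul_one])
  exact h

/-- most solutions are clean -/
lemma card_CleanS {D : Dat m l} {Q : Finset (ZMod m)} (hl : 2 ≤ l) (hQ : Q.card = l + 1) (a : Q)
    (j : ZMod m) :
    r * (r ^ l) ^ m ≤ r * (CleanS D r Q a j).card + (l + 1) ^ 2 * m * (r ^ l) ^ m := by
  classical
  set bad : (Q × Q) × ZMod m → Finset (Q → ZMod m → ZMod r) := fun x =>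
    if x.1.1 ≠ x.1.2 ∧ ¬ (x.2 ∈ Sp D Q j ∧ ((x.1.1 = a ∧ x.1.2.1 = x.2) ∨
      (x.1.2 = a ∧ x.1.1.1 = x.2))) then
      (LinS D r Q a j).filter fun α => ∑ w ∈ (univ.erase x.1.1).erase x.1.2, α w x.2 = 0
    else ∅ with hbad
  have hsub : LinS D r Q a j ⊆ CleanS D r Q a j ∪ univ.biUnion bad := by
    intro α hα
    by_cases hc : clean D Q a j α
    · refine mem_union_left _ (mem_filter.2 ⟨mem_univ _, (mem_filter.1 hα).2, hc⟩)
    · unfold clean at hc
      push Not at hc
      obtain ⟨u, v, huv, i, hs, hn⟩ := hc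
      refine mem_union_right _ (mem_biUnion.2 ⟨((u, v), i), mem_univ _, ?_⟩)
      rw [hbad]
      simp only
      rw [if_pos]
      · exact mem_filter.2 ⟨hα, hs⟩
      · refine ⟨huv, fun h => ?_⟩
        obtain ⟨h1, h2⟩ := hn h.1
        rcases h.2 with h3 | h3
        · exact h1 h3.1 h3.2
        · exact h2 h3.1 h3.2
  have hbadc : ∀ x, r * (bad x).card ≤ (r ^ l) ^ m := by
    intro x
    rw [hbad]
    simp only
    split_ifs with h
    · rw [mul_comm, bad_count hl hQ a j _ _ h.1 _ h.2, card_LinS hl hQ]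
    · simp
  have hcard := (card_le_card hsub).trans (card_union_le _ _)
  have hcard2 : (univ.biUnion bad).card ≤ ∑ x, (bad x).card := card_biUnion_le
  rw [card_LinS hl hQ] at hcard
  have h3 : r * ∑ x, (bad x).card ≤ (l + 1) ^ 2 * m * (r ^ l) ^ m := by
    rw [mul_sum]
    refine (sum_le_sum (fun x _ => hbadc x)).trans ?_
    rw [sum_const, card_univ, Fintype.card_prod, Fintype.card_prod, Fintype.card_coe, hQ,
      ZMod.card, smul_eq_mul]
    apply le_of_eq; ring
  calc r * (r ^ l) ^ m ≤ r * ((CleanS D r Q a j).card + (univ.biUnion bad).card) :=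
        Nat.mul_le_mul_left _ hcard
    _ ≤ r * ((CleanS D r Q a j).card + ∑ x, (bad x).card) := by gcongr
    _ = r * (CleanS D r Q a j).card + r * ∑ x, (bad x).card := by ring
    _ ≤ _ := by gcongr

end Pool.Agent.Helper85.FT
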