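import Pool.Agent.Helper85.FT.Gamma

/-!
# Counting cliques and covered edges
-/

set_option autoImplicit false
set_option linter.unusedSectionVars false

open Finset
open scoped FinsetFamily

namespace Pool.Agent.Helper85.FT

open Pool.Agent.Helper33.Flat

variable {m r R l : ℕ} [NeZero m] [NeZero r] [NeZero R]

/-- cliques of a given type -/
lemma upper_fiber (D : Dat m l) (hl : 2 ≤ l) {Q : Finset (ZMod m)} (hQ : IsSys l Q) :
    (l - 1) * ((KK D r R).filter fun C => typ C = Q).card ≤ l * ((r ^ l) ^ m * R ^ l) := by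
  classical
  set a : Q := ⟨D.a Q, D.a_mem Q hQ.1⟩ with ha
  have hsub : ((KK D r R).filter fun C => typ C = Q) ⊆
      ((univ.erase a).sigma fun j : Q => LinS D r Q a j.1 ×ˢ GS R Q a j).image
        (fun x => univ.map (emb Q x.2.1 x.2.2)) := by
    intro C hC
    rw [mem_filter] at hC
    obtain ⟨Q', hQ', j, α, γ, hj, h1, h2, h3⟩ := exists_param hl hC.1
    have hQQ : Q' = Q := by
      rw [← hC.2, h3, typ_map_univ]
    subst hQQ
    refine mem_image.2 ⟨⟨j, (α, γ)⟩, ?_, h3.symm⟩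
    rw [mem_sigma, mem_product]
    exact ⟨mem_erase.2 ⟨hj, mem_univ _⟩, mem_filter.2 ⟨mem_univ _, h1⟩,
      mem_filter.2 ⟨mem_univ _, h2⟩⟩
  have h1 := (card_le_card hsub).trans card_image_le
  rw [card_sigma] at h1
  have h2 : ∀ j : Q, (LinS D r Q a j.1 ×ˢ GS R Q a j).card = (r ^ l) ^ m * (GS R Q a j).card := by
    intro j
    rw [card_product, card_LinS hl hQ.1]
  rw [sum_congr rfl (fun j _ => h2 j), ← mul_sum] at h1
  calc (l - 1) * ((KK D r R).filter fun C => typ C = Q).card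
      ≤ (l - 1) * ((r ^ l) ^ m * ∑ j ∈ univ.erase a, (GS R Q a j).card) :=
        Nat.mul_le_mul_left _ h1
    _ = (r ^ l) ^ m * ((l - 1) * ∑ j ∈ univ.erase a, (GS R Q a j).card) := by ring
    _ ≤ (r ^ l) ^ m * (l * R ^ l) := Nat.mul_le_mul_left _ (total_GS_le hQ.1 a)
    _ = _ := by ring

/-- covered edges of a given type -/
lemma lower_fiber (D : Dat m l) {Q : Finset (ZMod m)} (hQ : IsSys l Q) (q : Q)
    (hqa : q.1 ≠ D.a Q) (hqH : Q.erase q.1 ∈ D.H) :
    ∑ j ∈ (univ.erase (⟨D.a Q, D.a_mem Q hQ.1⟩ : Q)).erase q,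
        (CleanS D r Q ⟨D.a Q, D.a_mem Q hQ.1⟩ j.1).card *
          (GS R Q ⟨D.a Q, D.a_mem Q hQ.1⟩ j).card ≤
      ((∂ (KK D r R)).filter fun X => typ X = Q.erase q.1).card := by
  classical
  set a : Q := ⟨D.a Q, D.a_mem Q hQ.1⟩ with ha
  have hqa' : q ≠ a := fun h => hqa (congrArg Subtype.val h)
  have hle : (((univ.erase a).erase q).sigma fun j : Q => CleanS D r Q a j.1 ×ˢ GS R Q a j).card
      ≤ ((∂ (KK D r R)).filter fun X => typ X = Q.erase q.1).card := by
    apply Finset.card_le_card_of_injOn (fun x => (univ.erase q).map (emb Q x.2.1 x.2.2))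
    · rintro ⟨j, α, γ⟩ hx
      rw [mem_coe, mem_sigma, mem_product] at hx
      obtain ⟨hj, hα, hγ⟩ := hx
      simp only at hα hγ hj
      have hα' := (mem_filter.1 hα).2
      have hγ' := (mem_filter.1 hγ).2
      rw [mem_coe, mem_filter]
      refine ⟨?_, typ_map Q α γ q⟩
      have hK := mem_KK_of_clean (r := r) (R := R) hQ (a := a) (j := j) rfl
        (mem_erase.1 (mem_erase.1 hj).2).1 hα'.1 hα'.2 hγ'
      refine mem_shadow_iff.2 ⟨_, hK, emb Q α γ q, mem_map_of_mem _ (mem_univ _), ?_⟩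
      exact (map_erase _ _ _).symm
    · rintro ⟨j, α, γ⟩ hx ⟨j', α', γ'⟩ hx' heq
      rw [mem_coe, mem_sigma, mem_product] at hx hx'
      obtain ⟨hj, hα, hγ⟩ := hx
      obtain ⟨hj', hα', hγ'⟩ := hx'
      simp only at hα hγ hj hα' hγ' hj' heq
      have hag : ∀ u, u ≠ q → emb Q α γ u = emb Q α' γ' u := by
        intro u hu
        have h1 : emb Q α γ u ∈ (univ.erase q).map (emb Q α' γ') := by
          rw [← heq]
          exact mem_map_of_mem _ (mem_erase.2 ⟨hu, mem_univ _⟩)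
        obtain ⟨v, hv, hvu⟩ := mem_map.1 h1
        have : v = u := Subtype.ext (by
          have := congrArg Prod.fst hvu
          exact this)
        rw [← hvu, this]
      have hag1 : ∀ u, u ≠ q → α u = α' u := fun u hu => by
        have := congrArg (fun p => p.2.1) (hag u hu)
        exact this
      have hag2 : ∀ u, u ≠ q → γ u = γ' u := fun u hu => by
        have := congrArg (fun p => p.2.2) (hag u hu)
        exact this
      rw [mem_erase, mem_erase] at hj hj'
      obtain ⟨rfl, rfl⟩ := gcond_unique hqa' hj.2.1 hj.1 hj'.2.1 hj'.1 (mem_filter.1 hγ).2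
        (mem_filter.1 hγ').2 hag2
      have hαα : α = α' := by
        funext u
        by_cases hu : u = q
        · subst hu
          funext i
          have e1 := (mem_filter.1 hα).2.1 i
          have e2 := (mem_filter.1 hα').2.1 i
          have hmem : u ∈ univ.filter (fun v : Q => v ≠ a ∧ ¬ (v.1 = i ∧ i ∈ Sp D Q j.1)) := by
            refine mem_filter.2 ⟨mem_univ _, hqa', ?_⟩
            rintro ⟨h1, h2⟩
            rw [← h1] at h2
            rcases mem_insert.1 h2 with h3 | h3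
            · exact hj.1 (Subtype.ext h3.symm)
            · exact (mem_filter.1 (mem_of_mem_erase h3)).2 hqH
          rw [← Finset.add_sum_erase _ _ hmem] at e1 e2
          have e3 : ∑ x ∈ (univ.filter (fun v : Q => v ≠ a ∧ ¬ (v.1 = i ∧ i ∈ Sp D Q j.1))).erase u,
              α x i = ∑ x ∈ (univ.filter (fun v : Q => v ≠ a ∧ ¬ (v.1 = i ∧
                i ∈ Sp D Q j.1))).erase u, α' x i := by
            apply sum_congr rfl
            intro x hx
            rw [hag1 x (mem_erase.1 hx).1]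
          rw [e3] at e1
          exact add_right_cancel (e1.trans e2.symm)
        · exact hag1 u hu
      rw [hαα]
  rw [card_sigma] at hle
  refine le_trans (le_of_eq ?_) hle
  apply sum_congr rfl
  intro j _
  rw [card_product]

/-- the final lower bound for one edge type -/
lemma lower_fiber_real (D : Dat m l) (hl : 2 ≤ l) {Q : Finset (ZMod m)} (hQ : IsSys l Q) (q : Q)
    (hqa : q.1 ≠ D.a Q) (hqH : Q.erase q.1 ∈ D.H) (hr : (l + 1) ^ 2 * m ≤ r) :
    ((r : ℝ) ^ l) ^ m * (R : ℝ) ^ l * (1 - (l + 1) ^ 2 * m / r) * (1 - (l ^ 2 + l) / R) ≤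
      (((∂ (KK D r R)).filter fun X => typ X = Q.erase q.1).card : ℝ) := by
  classical
  set a : Q := ⟨D.a Q, D.a_mem Q hQ.1⟩ with ha
  have hqa' : q ≠ a := fun h => hqa (congrArg Subtype.val h)
  have hr0 : (0 : ℝ) < r := by exact_mod_cast Nat.pos_of_ne_zero (NeZero.ne r)
  have hR0 : (0 : ℝ) < R := by exact_mod_cast Nat.pos_of_ne_zero (NeZero.ne R)
  have h1 := lower_fiber (r := r) (R := R) D hQ q hqa hqH
  have h2 : ∀ j : Q, ((r : ℝ) ^ l) ^ m * (1 - (l + 1) ^ 2 * m / r) ≤
      ((CleanS D r Q a j.1).card : ℝ) := by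
    intro j
    have := card_CleanS (r := r) (D := D) hl hQ.1 a j.1
    have h3 : (r : ℝ) * ((r : ℝ) ^ l) ^ m ≤ r * ((CleanS D r Q a j.1).card : ℝ) +
        (l + 1) ^ 2 * m * ((r : ℝ) ^ l) ^ m := by exact_mod_cast this
    have h4 : r * (((r : ℝ) ^ l) ^ m * (1 - (l + 1) ^ 2 * m / r)) ≤
        r * ((CleanS D r Q a j.1).card : ℝ) := by
      have : r * (((r : ℝ) ^ l) ^ m * (1 - (l + 1) ^ 2 * m / r))
          = r * ((r : ℝ) ^ l) ^ m - (l + 1) ^ 2 * m * ((r : ℝ) ^ l) ^ m := by
        field_simp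
      rw [this]; linarith
    exact le_of_mul_le_mul_left h4 hr0
  have h5 : (R : ℝ) ^ l * (1 - (l ^ 2 + l) / R) ≤
      ∑ j ∈ (univ.erase a).erase q, ((GS R Q a j).card : ℝ) := by
    have := sum_GS_ge (R := R) hl hQ.1 a q hqa'
    have h3 : (R : ℝ) * (R : ℝ) ^ l ≤ R * ∑ j ∈ (univ.erase a).erase q, ((GS R Q a j).card : ℝ) +
        ((l : ℝ) ^ 2 + l) * (R : ℝ) ^ l := by exact_mod_cast this
    have h4 : R * ((R : ℝ) ^ l * (1 - (l ^ 2 + l) / R)) ≤
        R * ∑ j ∈ (univ.erase a).erase q, ((GS R Q a j).card : ℝ) := by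
      have : R * ((R : ℝ) ^ l * (1 - (l ^ 2 + l) / R))
          = R * (R : ℝ) ^ l - ((l : ℝ) ^ 2 + l) * (R : ℝ) ^ l := by
        field_simp
      rw [this]; linarith
    exact le_of_mul_le_mul_left h4 hR0
  have h6 : (0 : ℝ) ≤ ((r : ℝ) ^ l) ^ m * (1 - (l + 1) ^ 2 * m / r) := by
    apply mul_nonneg (by positivity)
    rw [sub_nonneg, div_le_one hr0]
    exact_mod_cast hr
  calc ((r : ℝ) ^ l) ^ m * (R : ℝ) ^ l * (1 - (l + 1) ^ 2 * m / r) * (1 - (l ^ 2 + l) / R)
      = (((r : ℝ) ^ l) ^ m * (1 - (l + 1) ^ 2 * m / r)) * ((R : ℝ) ^ l * (1 - (l ^ 2 + l) / R)) := by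
        ring
    _ ≤ (((r : ℝ) ^ l) ^ m * (1 - (l + 1) ^ 2 * m / r)) *
        ∑ j ∈ (univ.erase a).erase q, ((GS R Q a j).card : ℝ) :=
        mul_le_mul_of_nonneg_left h5 h6
    _ = ∑ j ∈ (univ.erase a).erase q, (((r : ℝ) ^ l) ^ m * (1 - (l + 1) ^ 2 * m / r)) *
        ((GS R Q a j).card : ℝ) := by rw [mul_sum]
    _ ≤ ∑ j ∈ (univ.erase a).erase q, ((CleanS D r Q a j.1).card : ℝ) *
        ((GS R Q a j).card : ℝ) := by
        apply sum_le_sum
        intro j _
        exact mul_le_mul_of_nonneg_right (h2 j) (by positivity)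
    _ ≤ _ := by exact_mod_cast h1

/-- the number of system sets -/
lemma card_sys (l m : ℕ) [NeZero m] :
    (l + 1) * ((univ : Finset (Finset (ZMod m))).filter fun Q => Q.card = l + 1 ∧
      ∑ i ∈ Q, i = 0).card ≤ m.choose l := by
  classical
  set sys := (univ : Finset (Finset (ZMod m))).filter fun Q => Q.card = l + 1 ∧
      ∑ i ∈ Q, i = 0 with hsys
  have h1 : (sys.sigma fun Q => Q).card = (l + 1) * sys.card := by
    rw [card_sigma, sum_congr rfl (fun Q hQ => (mem_filter.1 hQ).2.1), sum_const, smul_eq_mul,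
      mul_comm]
  have h2 : (sys.sigma fun Q => Q).card ≤ ((univ : Finset (ZMod m)).powersetCard l).card := by
    apply Finset.card_le_card_of_injOn (fun x => x.1.erase x.2)
    · rintro ⟨Q, q⟩ hx
      rw [mem_coe, mem_sigma] at hx
      rw [mem_coe, mem_powersetCard]
      refine ⟨subset_univ _, ?_⟩
      show (Q.erase q).card = l
      rw [card_erase_of_mem hx.2, (mem_filter.1 hx.1).2.1]; rfl
    · rintro ⟨Q, q⟩ hx ⟨Q', q'⟩ hx' heq
      rw [mem_coe, mem_sigma] at hx hx'
      have := sys_unique (l := l) (mem_filter.1 hx.1).2 (mem_filter.1 hx'.1).2 hx.2 hx'.2 heq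
      obtain ⟨h3, h4⟩ := this
      simp only at h3 h4
      subst h3; subst h4; rfl
  rw [h1, card_powersetCard, card_univ, ZMod.card] at h2
  exact h2

/-- few edges are not extended by the system -/
lemma card_bad_edges (hm : Odd m) (H : Finset (Finset (ZMod m))) (hH : ∀ e ∈ H, e.card = l)
    (hl : 1 ≤ l) :
    H.card ≤ (H.filter fun e => -(∑ i ∈ e, i) ∉ e).card + m.choose (l - 1) := by
  classical
  have h1 : H.card = (H.filter fun e => -(∑ i ∈ e, i) ∉ e).card +
      (H.filter fun e => ¬ -(∑ i ∈ e, i) ∉ e).card :=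
    (Finset.card_filter_add_card_filter_not _).symm
  have h2 : (H.filter fun e => ¬ -(∑ i ∈ e, i) ∉ e).card ≤
      ((univ : Finset (ZMod m)).powersetCard (l - 1)).card := by
    apply Finset.card_le_card_of_injOn (fun e => e.erase (-(∑ i ∈ e, i)))
    · intro e he
      rw [mem_coe, mem_filter, not_not] at he
      rw [mem_coe, mem_powersetCard]
      exact ⟨subset_univ _, by rw [card_erase_of_mem he.2, hH e he.1]⟩
    · intro e he e' he' heq
      rw [mem_coe, mem_filter, not_not] at he he'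
      simp only at heq
      have s1 := Finset.add_sum_erase e (fun i => i) he.2
      have s2 := Finset.add_sum_erase e' (fun i => i) he'.2
      rw [← heq] at s2
      simp only at s1 s2
      -- both `x = -∑ e` satisfy `2 x = - ∑ (e.erase x)`
      have s3 : (-(∑ i ∈ e, i)) + (-(∑ i ∈ e, i)) = (-(∑ i ∈ e', i)) + (-(∑ i ∈ e', i)) := by
        linear_combination s1 - s2
      have hdouble : -(∑ i ∈ e, i) = -(∑ i ∈ e', i) := by
        have hu : IsUnit (2 : ZMod m) := by
          have : IsUnit ((2 : ℕ) : ZMod m) := by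
            rw [ZMod.isUnit_iff_coprime]
            exact (Nat.coprime_two_left.2 hm)
          exact_mod_cast this
        apply hu.mul_left_cancel
        linear_combination s3
      rw [← insert_erase he.2, heq, hdouble, insert_erase he'.2]
  rw [card_powersetCard, card_univ, ZMod.card] at h2
  omega

/-- **The construction.** -/
theorem construction (D : Dat m l) (hl : 2 ≤ l) (hm : Odd m) (hr : (l + 1) ^ 2 * m ≤ r) {n : ℕ}
    (hn : m * (r ^ m * R) ≤ n) (hln : l ≤ n) (hR : l ^ 2 + l ≤ R) :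
    ∃ 𝒜 : Finset (Finset (Fin n)), IsFlatMax n l 𝒜 ∧
      (𝒜.card : ℝ) ≤ n.choose l + (l : ℝ) / ((l - 1) * (l + 1)) * m.choose l * ((r : ℝ) ^ m * R) ^ l
        - ((D.H.card : ℝ) - m.choose (l - 1)) * (((r : ℝ) ^ m * R) ^ l *
          (1 - (l + 1) ^ 2 * m / r) * (1 - (l ^ 2 + l) / R)) := by
  classical
  have hr0 : (0 : ℝ) < r := by exact_mod_cast Nat.pos_of_ne_zero (NeZero.ne r)
  have hR0 : (0 : ℝ) < R := by exact_mod_cast Nat.pos_of_ne_zero (NeZero.ne R)
  have hV : Fintype.card (Vx m r R) = m * (r ^ m * R) := by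
    rw [Fintype.card_prod, Fintype.card_prod, Fintype.card_fun, ZMod.card, ZMod.card, ZMod.card]
  obtain ⟨f⟩ : Nonempty (Vx m r R ↪ Fin n) := by
    apply Function.Embedding.nonempty_of_card_le
    rw [hV, Fintype.card_fin]; exact hn
  obtain ⟨𝒜, h1, h2⟩ := exists_flat f (KK D r R) (by omega) hln (KK_closed D)
  refine ⟨𝒜, h1, ?_⟩
  -- cliques
  set sys := (univ : Finset (Finset (ZMod m))).filter fun Q => Q.card = l + 1 ∧
      ∑ i ∈ Q, i = 0 with hsys
  have hK : (l - 1) * (KK D r R).card ≤ sys.card * (l * ((r ^ l) ^ m * R ^ l)) := by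
    have h3 : (KK D r R).card = ∑ Q ∈ sys, ((KK D r R).filter fun C => typ C = Q).card := by
      apply Finset.card_eq_sum_card_fiberwise
      intro C hC
      obtain ⟨Q', hQ', j, α, γ, hj, h1, h2, h3⟩ := exists_param hl hC
      rw [mem_coe, hsys, mem_filter, h3, typ_map_univ]
      exact ⟨mem_univ _, hQ'⟩
    rw [h3, mul_sum, ← smul_eq_mul (a := sys.card), ← sum_const]
    exact sum_le_sum fun Q hQ => upper_fiber D hl (mem_filter.1 hQ).2
  have hKr : (l - 1 : ℝ) * ((l + 1) * (KK D r R).card) ≤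
      m.choose l * (l * (((r : ℝ) ^ m * R) ^ l)) := by
    have hs := card_sys l m
    have h4 : (l - 1) * ((l + 1) * (KK D r R).card) ≤ m.choose l * (l * ((r ^ l) ^ m * R ^ l)) := by
      calc (l - 1) * ((l + 1) * (KK D r R).card) = (l + 1) * ((l - 1) * (KK D r R).card) := by ring
        _ ≤ (l + 1) * (sys.card * (l * ((r ^ l) ^ m * R ^ l))) := Nat.mul_le_mul_left _ hK
        _ = ((l + 1) * sys.card) * (l * ((r ^ l) ^ m * R ^ l)) := by ring
        _ ≤ _ := Nat.mul_le_mul_right _ hs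
    have h5 : (((l - 1 : ℕ) : ℝ)) * ((l + 1) * (KK D r R).card) ≤
        m.choose l * (l * (((r : ℝ) ^ l) ^ m * (R : ℝ) ^ l)) := by exact_mod_cast h4
    rw [Nat.cast_sub (by omega)] at h5
    have e1 : ((r : ℝ) ^ m * R) ^ l = ((r : ℝ) ^ l) ^ m * (R : ℝ) ^ l := by
      rw [mul_pow, ← pow_mul, ← pow_mul, mul_comm m l]
    rw [e1]
    simpa using h5
  -- covered edges
  set E := D.H.filter fun e => -(∑ i ∈ e, i) ∉ e with hE
  have hcov : (E.card : ℝ) * (((r : ℝ) ^ m * R) ^ l * (1 - (l + 1) ^ 2 * m / r) *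
      (1 - (l ^ 2 + l) / R)) ≤ ((∂ (KK D r R)).card : ℝ) := by
    have h3 : ∑ e ∈ E, ((∂ (KK D r R)).filter fun X => typ X = e).card ≤ (∂ (KK D r R)).card := by
      rw [← card_biUnion]
      · apply card_le_card
        intro X hX
        obtain ⟨e, _, hX'⟩ := mem_biUnion.1 hX
        exact (mem_filter.1 hX').1
      · intro e _ e' _ hne
        rw [Function.onFun, disjoint_left]
        intro X hX hX'
        exact hne ((mem_filter.1 hX).2.symm.trans (mem_filter.1 hX').2)
    have h4 : (E.card : ℝ) * (((r : ℝ) ^ m * R) ^ l * (1 - (l + 1) ^ 2 * m / r) *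
        (1 - (l ^ 2 + l) / R)) ≤ ∑ e ∈ E, (((∂ (KK D r R)).filter fun X => typ X = e).card : ℝ) := by
      rw [← nsmul_eq_mul, ← sum_const]
      apply sum_le_sum
      intro e he
      rw [hE, mem_filter] at he
      obtain ⟨heH, hne⟩ := he
      set q0 := -(∑ i ∈ e, i) with hq0
      set Q := insert q0 e with hQ
      have hcQ : Q.card = l + 1 := by rw [hQ, card_insert_of_notMem hne, D.card_H e heH]
      have hsQ : ∑ i ∈ Q, i = 0 := by rw [hQ, sum_insert hne, hq0]; ring
      have hQe : Q.erase q0 = e := by rw [hQ, erase_insert hne]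
      have hqa : q0 ≠ D.a Q := by
        intro h
        have := D.a_not Q hcQ
        rw [← h, hQe] at this
        exact this heH
      have := lower_fiber_real (r := r) (R := R) D hl ⟨hcQ, hsQ⟩ ⟨q0, mem_insert_self _ _⟩ hqa
        (by rw [hQe]; exact heH) hr
      rw [hQe] at this
      have e1 : ((r : ℝ) ^ m * R) ^ l = ((r : ℝ) ^ l) ^ m * (R : ℝ) ^ l := by
        rw [mul_pow, ← pow_mul, ← pow_mul, mul_comm m l]
      rw [e1]
      exact this
    refine h4.trans ?_
    exact_mod_cast h3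
  have hEc : (D.H.card : ℝ) - m.choose (l - 1) ≤ E.card := by
    have := card_bad_edges hm D.H D.card_H (by omega)
    have h5 : (D.H.card : ℝ) ≤ E.card + m.choose (l - 1) := by exact_mod_cast this
    linarith
  have hfac : (0 : ℝ) ≤ ((r : ℝ) ^ m * R) ^ l * (1 - (l + 1) ^ 2 * m / r) *
      (1 - (l ^ 2 + l) / R) := by
    apply mul_nonneg
    · apply mul_nonneg (by positivity)
      rw [sub_nonneg, div_le_one hr0]
      exact_mod_cast hr
    · rw [sub_nonneg, div_le_one hR0]
      exact_mod_cast hR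
  have h6 : (𝒜.card : ℝ) + (∂ (KK D r R)).card = (KK D r R).card + n.choose l := by
    exact_mod_cast h2
  have h7 : ((KK D r R).card : ℝ) ≤
      (l : ℝ) / ((l - 1) * (l + 1)) * m.choose l * ((r : ℝ) ^ m * R) ^ l := by
    have hl1 : (0 : ℝ) < (l : ℝ) - 1 := by
      have : (2 : ℝ) ≤ l := by exact_mod_cast hl
      linarith
    have e2 : (l : ℝ) / ((l - 1) * (l + 1)) * m.choose l * ((r : ℝ) ^ m * R) ^ l
        = m.choose l * (l * (((r : ℝ) ^ m * R) ^ l)) / ((l - 1) * (l + 1)) := by ring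
    rw [e2, le_div_iff₀ (by positivity)]
    calc ((KK D r R).card : ℝ) * ((l - 1) * (l + 1)) = (l - 1 : ℝ) * ((l + 1) * (KK D r R).card) := by
          ring
      _ ≤ _ := hKr
  have h8 : ((D.H.card : ℝ) - m.choose (l - 1)) * (((r : ℝ) ^ m * R) ^ l *
      (1 - (l + 1) ^ 2 * m / r) * (1 - (l ^ 2 + l) / R)) ≤ ((∂ (KK D r R)).card : ℝ) :=
    (mul_le_mul_of_nonneg_right hEc hfac).trans hcov
  linarith

end Pool.Agent.Helper85.FT
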