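import Pool.Agent.Helper85.FT.Count

/-!
# Counting the numerical labels
-/

set_option autoImplicit false
set_option linter.unusedSectionVars false

open Finset

namespace Pool.Agent.Helper85.FT

variable {m r R l : ℕ} [NeZero m] [NeZero r] [NeZero R]

/-- two solutions with labels `j`, `j'` that agree off `q` are equal and have the same label -/
lemma gcond_unique {Q : Finset (ZMod m)} {a q j j' : Q} (hqa : q ≠ a) (hja : j ≠ a) (hjq : j ≠ q)
    (hj'a : j' ≠ a) (hj'q : j' ≠ q) {γ γ' : Q → ZMod R} (h : gcond Q a j γ)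
    (h' : gcond Q a j' γ') (hag : ∀ u, u ≠ q → γ u = γ' u) : j = j' ∧ γ = γ' := by
  have hjj : j = j' := by
    by_contra hne
    have h1 := h.1 j' hj'a (fun h => hne h.symm)
    have h2 := h'.1 j hja hne
    rw [hag j hjq, hag j' hj'q] at h1
    omega
  subst hjj
  refine ⟨rfl, ?_⟩
  funext u
  by_cases hu : u = q
  · subst hu
    have hg : γ j = γ' j := hag j hjq
    have h1 := h.1 u hqa (Ne.symm hjq)
    have h2 := h'.1 u hqa (Ne.symm hjq)
    rw [← hg] at h2
    have hu' : u ∈ (univ.erase a).erase j := mem_erase.2 ⟨Ne.symm hjq, mem_erase.2 ⟨hqa, mem_univ _⟩⟩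
    have d1 := h.2
    have d2 := h'.2
    rw [← Finset.add_sum_erase _ _ hu'] at d1 d2
    rw [← hg] at d2
    have hs : ∑ x ∈ ((univ.erase a).erase j).erase u, (γ x).val
        = ∑ x ∈ ((univ.erase a).erase j).erase u, (γ' x).val := by
      apply sum_congr rfl
      intro x hx
      rw [hag x (mem_erase.1 hx).1]
    rw [← hs] at d2
    apply ZMod.val_injective R
    have h3 : (γ u).val ≡ (γ' u).val [MOD (γ j).val] := by
      have e1 : (γ u).val + ∑ x ∈ ((univ.erase a).erase j).erase u, (γ x).val ≡
          (γ' u).val + ∑ x ∈ ((univ.erase a).erase j).erase u, (γ x).val [MOD (γ j).val] :=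
        ((Nat.modEq_zero_iff_dvd.2 d1).trans (Nat.modEq_zero_iff_dvd.2 d2).symm)
      exact Nat.ModEq.add_right_cancel' _ e1
    exact Nat.ModEq.eq_of_lt_of_lt h3 h1 h2
  · exact hag u hu

/-- restriction off `q` -/
def res (Q : Finset (ZMod m)) (R : ℕ) (q : Q) (γ : Q → ZMod R) : {u : Q // u ≠ q} → ZMod R :=
  fun u => γ u.1

lemma card_off {Q : Finset (ZMod m)} (hQ : Q.card = l + 1) (q : Q) :
    Fintype.card {u : Q // u ≠ q} = l := by
  rw [Fintype.card_subtype_compl, Fintype.card_coe, hQ]
  simp

/-- upper bound -/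
lemma sum_GS_le {Q : Finset (ZMod m)} (hQ : Q.card = l + 1) (a q : Q) (hqa : q ≠ a) :
    ∑ j ∈ (univ.erase a).erase q, (GS R Q a j).card ≤ R ^ l := by
  classical
  have h1 : (((univ.erase a).erase q).sigma fun j => GS R Q a j).card
      ≤ (univ : Finset ({u : Q // u ≠ q} → ZMod R)).card := by
    apply Finset.card_le_card_of_injOn (fun x => res Q R q x.2) (fun _ _ => mem_univ _)
    rintro ⟨j, γ⟩ hx ⟨j', γ'⟩ hx' heq
    rw [mem_coe, mem_sigma] at hx hx'
    simp only at hx hx' heq
    obtain ⟨hj, hγ⟩ := hx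
    obtain ⟨hj', hγ'⟩ := hx'
    rw [mem_erase, mem_erase] at hj hj'
    have := gcond_unique hqa hj.2.1 hj.1 hj'.2.1 hj'.1 (mem_filter.1 hγ).2 (mem_filter.1 hγ').2
      (fun u hu => congrFun heq ⟨u, hu⟩)
    obtain ⟨rfl, rfl⟩ := this
    rfl
  rw [card_sigma, card_univ, Fintype.card_fun, ZMod.card, card_off hQ] at h1
  exact h1

/-- total upper bound -/
lemma total_GS_le {Q : Finset (ZMod m)} (hQ : Q.card = l + 1) (a : Q) :
    (l - 1) * ∑ j ∈ univ.erase a, (GS R Q a j).card ≤ l * R ^ l := by
  classical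
  have h1 : ∑ q ∈ univ.erase a, ∑ j ∈ (univ.erase a).erase q, (GS R Q a j).card
      = (l - 1) * ∑ j ∈ univ.erase a, (GS R Q a j).card := by
    have e1 : ∀ q ∈ (univ : Finset Q).erase a, ∑ j ∈ (univ.erase a).erase q, (GS R Q a j).card
        = ∑ j ∈ univ.erase a, if j = q then 0 else (GS R Q a j).card := by
      intro q hq
      rw [← Finset.add_sum_erase _ _ hq]
      simp only [if_true, zero_add]
      apply sum_congr rfl
      intro j hj
      rw [if_neg (mem_erase.1 hj).1]
    rw [sum_congr rfl e1, sum_comm, mul_sum]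
    apply sum_congr rfl
    intro j hj
    rw [← Finset.add_sum_erase _ _ hj]
    simp only [if_true, zero_add]
    have e2 : ∀ q ∈ ((univ : Finset Q).erase a).erase j,
        (if j = q then 0 else (GS R Q a j).card) = (GS R Q a j).card := by
      intro q hq
      rw [if_neg (fun h => (mem_erase.1 hq).1 h.symm)]
    rw [sum_congr rfl e2, sum_const, card_erase_of_mem hj, card_erase_univ hQ, smul_eq_mul]
  rw [← h1]
  calc ∑ q ∈ univ.erase a, ∑ j ∈ (univ.erase a).erase q, (GS R Q a j).card
      ≤ ∑ q ∈ (univ : Finset Q).erase a, R ^ l :=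
        sum_le_sum fun q hq => sum_GS_le hQ a q (mem_erase.1 hq).1
    _ = l * R ^ l := by
        rw [sum_const, card_erase_univ hQ, smul_eq_mul]

/-- lower bound -/
lemma sum_GS_ge {Q : Finset (ZMod m)} (hl : 2 ≤ l) (hQ : Q.card = l + 1) (a q : Q)
    (hqa : q ≠ a) :
    R * R ^ l ≤ R * ∑ j ∈ (univ.erase a).erase q, (GS R Q a j).card + (l ^ 2 + l) * R ^ l := by
  classical
  -- bad functions
  set Off := {u : Q // u ≠ q} with hOff
  set bad1 : Off × Off → Finset (Off → ZMod R) := fun x =>
    if x.1 ≠ x.2 then univ.filter fun δ => δ x.1 - δ x.2 = 0 else ∅ with hbad1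
  set bad2 : Off → Finset (Off → ZMod R) := fun x => univ.filter fun δ => δ x = 0 with hbad2
  have hcOff : Fintype.card Off = l := card_off hQ q
  have hall : (univ : Finset (Off → ZMod R)).card = R ^ l := by
    rw [card_univ, Fintype.card_fun, ZMod.card, hcOff]
  have hb1 : ∀ x, R * (bad1 x).card ≤ R ^ l := by
    rintro ⟨u, v⟩
    simp only [hbad1]
    split_ifs with h
    · have := fiber_count (s := R) (univ : Finset (Off → ZMod R)) (Pi.single u 1)
        (fun _ _ _ => mem_univ _) (fun δ => δ u - δ v) (by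
          intro f c
          simp only [Pi.add_apply, Pi.smul_apply, smul_eq_mul, Pi.single_eq_same,
            Pi.single_eq_of_ne (Ne.symm h), mul_one, mul_zero, add_zero]
          ring)
      rw [mul_comm, this, hall]
    · simp
  have hb2 : ∀ x, R * (bad2 x).card ≤ R ^ l := by
    intro u
    have := fiber_count (s := R) (univ : Finset (Off → ZMod R)) (Pi.single u 1)
      (fun _ _ _ => mem_univ _) (fun δ => δ u) (by
        intro f c
        simp only [Pi.add_apply, Pi.smul_apply, smul_eq_mul, Pi.single_eq_same, mul_one])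
    simp only [hbad2]
    rw [mul_comm, this, hall]
  -- good functions
  set good : Finset (Off → ZMod R) := univ.filter fun δ =>
    (∀ u v : Off, u ≠ v → δ u ≠ δ v) ∧ ∀ u : Off, δ u ≠ 0 with hgood
  have hsub : (univ : Finset (Off → ZMod R)) ⊆ good ∪ (univ.biUnion bad1 ∪ univ.biUnion bad2) := by
    intro δ _
    by_cases h1 : ∀ u v : Off, u ≠ v → δ u ≠ δ v
    · by_cases h2 : ∀ u : Off, δ u ≠ 0
      · exact mem_union_left _ (mem_filter.2 ⟨mem_univ _, h1, h2⟩)
      · push Not at h2
        obtain ⟨u, hu⟩ := h2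
        exact mem_union_right _ (mem_union_right _ (mem_biUnion.2 ⟨u, mem_univ _,
          mem_filter.2 ⟨mem_univ _, hu⟩⟩))
    · push Not at h1
      obtain ⟨u, v, huv, h⟩ := h1
      refine mem_union_right _ (mem_union_left _ (mem_biUnion.2 ⟨(u, v), mem_univ _, ?_⟩))
      simp only [hbad1]
      rw [if_pos huv]
      exact mem_filter.2 ⟨mem_univ _, sub_eq_zero.2 h⟩
  -- good functions extend
  have hgoodle : good.card ≤ (((univ.erase a).erase q).sigma fun j => GS R Q a j).card := by
    have hext : ∀ δ ∈ good, ∃ x ∈ ((univ.erase a).erase q).sigma fun j => GS R Q a j,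
        res Q R q x.2 = δ := by
      intro δ hδ
      obtain ⟨-, hd, hz⟩ := mem_filter.1 hδ
      -- the maximum
      have hne : ((univ : Finset Off).filter fun u => u.1 ≠ a).Nonempty := by
        have h1 : (((univ : Finset Q).erase a).erase q).Nonempty := by
          rw [← card_pos, card_erase_of_mem (mem_erase.2 ⟨hqa, mem_univ _⟩), card_erase_univ hQ]
          omega
        obtain ⟨u, hu⟩ := h1
        rw [mem_erase, mem_erase] at hu
        exact ⟨⟨u, hu.1⟩, mem_filter.2 ⟨mem_univ _, hu.2.1⟩⟩
      obtain ⟨j, hj, hjmax⟩ := Finset.exists_max_image _ (fun u : Off => (δ u).val) hne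
      have hja : j.1 ≠ a := (mem_filter.1 hj).2
      have hjq : j.1 ≠ q := j.2
      have hpos : 0 < (δ j).val := by
        have := hz j
        rw [Nat.pos_iff_ne_zero]
        intro h
        exact this ((ZMod.val_eq_zero _).1 h)
      have hlt : ∀ u : Off, u.1 ≠ a → u ≠ j → (δ u).val < (δ j).val := by
        intro u hua huj
        have h1 := hjmax u (mem_filter.2 ⟨mem_univ _, hua⟩)
        have h2 : (δ u).val ≠ (δ j).val := fun h => hd u j huj (ZMod.val_injective R h)
        omega
      -- the completed function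
      set g := (δ j).val with hg
      set E : Q → ZMod R := fun u => if h : u ≠ q then δ ⟨u, h⟩ else 0 with hE
      set S0 := ∑ u ∈ ((univ.erase a).erase j.1).erase q, (E u).val with hS0
      set v := (g - S0 % g) % g with hv
      have hvlt : v < g := Nat.mod_lt _ hpos
      have hgR : g < R := ZMod.val_lt _
      have hvv : ((v : ℕ) : ZMod R).val = v := ZMod.val_natCast_of_lt (hvlt.trans hgR)
      set γ : Q → ZMod R := fun u => if h : u ≠ q then δ ⟨u, h⟩ else (v : ZMod R) with hγ
      have hγq : γ q = (v : ZMod R) := by simp [hγ]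
      have hγn : ∀ u : Q, ∀ h : u ≠ q, γ u = δ ⟨u, h⟩ := by
        intro u h
        simp only [hγ]
        rw [dif_pos h]
      have hγE : ∀ u : Q, u ≠ q → γ u = E u := by
        intro u h
        simp only [hγ, hE]
        rw [dif_pos h, dif_pos h]
      refine ⟨⟨j.1, γ⟩, ?_, ?_⟩
      · rw [mem_sigma]
        refine ⟨mem_erase.2 ⟨hjq, mem_erase.2 ⟨hja, mem_univ _⟩⟩, mem_filter.2 ⟨mem_univ _, ?_⟩⟩
        have hγj : γ j.1 = δ j := hγn j.1 hjq
        show gcond Q a j.1 γ
        refine ⟨?_, ?_⟩
        · intro u hua huj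
          rw [hγj]
          by_cases huq : u = q
          · subst huq
            rw [hγq, hvv]; exact hvlt
          · rw [hγn u huq]
            exact hlt ⟨u, huq⟩ hua (fun h => huj (congrArg Subtype.val h))
        · have hq' : q ∈ (univ.erase a).erase j.1 :=
            mem_erase.2 ⟨Ne.symm hjq, mem_erase.2 ⟨hqa, mem_univ _⟩⟩
          rw [hγj, ← Finset.add_sum_erase _ _ hq', hγq, hvv]
          have hs : ∑ x ∈ ((univ.erase a).erase j.1).erase q, (γ x).val = S0 := by
            apply sum_congr rfl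
            intro x hx
            rw [hγE x (mem_erase.1 hx).1]
          rw [hs]
          -- `g ∣ (g - S0 % g) % g + S0`
          have h5 : S0 % g < g := Nat.mod_lt _ hpos
          apply (Nat.modEq_zero_iff_dvd).1
          calc v + S0 ≡ (g - S0 % g) + S0 % g [MOD g] := by
                refine Nat.ModEq.add ?_ (Nat.mod_modEq _ _).symm
                exact Nat.mod_modEq _ _
            _ = g := by omega
            _ ≡ 0 [MOD g] := (Nat.modEq_zero_iff_dvd).2 dvd_rfl
      · funext u
        show γ u.1 = δ u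
        exact hγn u.1 u.2
    have hsub2 : good ⊆ (((univ.erase a).erase q).sigma fun j => GS R Q a j).image
        (fun x => res Q R q x.2) := by
      intro δ hδ
      obtain ⟨x, hx, hx'⟩ := hext δ hδ
      exact mem_image.2 ⟨x, hx, hx'⟩
    exact (card_le_card hsub2).trans card_image_le
  rw [card_sigma] at hgoodle
  have hcard := (card_le_card hsub).trans (card_union_le _ _)
  have hcard2 := (card_union_le (univ.biUnion bad1) (univ.biUnion bad2))
  have hcard3 : (univ.biUnion bad1).card ≤ ∑ x, (bad1 x).card := card_biUnion_le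
  have hcard4 : (univ.biUnion bad2).card ≤ ∑ x, (bad2 x).card := card_biUnion_le
  have h5 : R * ∑ x, (bad1 x).card ≤ l ^ 2 * R ^ l := by
    rw [mul_sum]
    refine (sum_le_sum (fun x _ => hb1 x)).trans ?_
    rw [sum_const, card_univ, Fintype.card_prod, hcOff, smul_eq_mul]
    apply le_of_eq; ring
  have h6 : R * ∑ x, (bad2 x).card ≤ l * R ^ l := by
    rw [mul_sum]
    refine (sum_le_sum (fun x _ => hb2 x)).trans ?_
    rw [sum_const, card_univ, hcOff, smul_eq_mul]
  rw [hall] at hcard
  have h7 : R ^ l ≤ ∑ j ∈ (univ.erase a).erase q, (GS R Q a j).card +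
      (∑ x, (bad1 x).card + ∑ x, (bad2 x).card) := by omega
  calc R * R ^ l ≤ R * (∑ j ∈ (univ.erase a).erase q, (GS R Q a j).card +
      (∑ x, (bad1 x).card + ∑ x, (bad2 x).card)) := Nat.mul_le_mul_left _ h7
    _ = R * ∑ j ∈ (univ.erase a).erase q, (GS R Q a j).card +
      (R * ∑ x, (bad1 x).card + R * ∑ x, (bad2 x).card) := by ring
    _ ≤ R * ∑ j ∈ (univ.erase a).erase q, (GS R Q a j).card + (l ^ 2 * R ^ l + l * R ^ l) := by
        gcongr
    _ = _ := by ring

end Pool.Agent.Helper85.FT
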