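import Pool.Agent.Helper85.FT.Core

/-!
# Parametrisation of the cliques
-/

set_option autoImplicit false
set_option linter.unusedSectionVars false

open Finset
open scoped FinsetFamily

namespace Pool.Agent.Helper85.FT

open Pool.Agent.Helper33.Flat

variable {m r R l : ℕ} [NeZero m] [NeZero r] [NeZero R]

/-- the vertex set of a transversal -/
def emb (Q : Finset (ZMod m)) (α : Q → ZMod m → ZMod r) (γ : Q → ZMod R) : Q ↪ Vx m r R :=
  ⟨fun u => (u.1, (α u, γ u)), fun u v h => Subtype.ext (by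
    have := congrArg Prod.fst h
    exact this)⟩

@[simp] lemma emb_apply (Q : Finset (ZMod m)) (α : Q → ZMod m → ZMod r) (γ : Q → ZMod R) (u : Q) :
    emb Q α γ u = (u.1, (α u, γ u)) := rfl

/-- the linear conditions -/
def lin (D : Dat m l) (Q : Finset (ZMod m)) (a : Q) (j : ZMod m) (α : Q → ZMod m → ZMod r) :
    Prop :=
  ∀ i, ∑ u ∈ univ.filter (fun u : Q => u ≠ a ∧ ¬ (u.1 = i ∧ i ∈ Sp D Q j)), α u i = 0

/-- no unwanted marks -/
def clean (D : Dat m l) (Q : Finset (ZMod m)) (a : Q) (j : ZMod m) (α : Q → ZMod m → ZMod r) :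
    Prop :=
  ∀ u v : Q, u ≠ v → ∀ i, ∑ w ∈ (univ.erase u).erase v, α w i = 0 →
    i ∈ Sp D Q j ∧ ((u = a ∧ v.1 = i) ∨ (v = a ∧ u.1 = i))

/-- the condition on the numerical labels -/
def gcond (Q : Finset (ZMod m)) (a j : Q) (γ : Q → ZMod R) : Prop :=
  (∀ u, u ≠ a → u ≠ j → (γ u).val < (γ j).val) ∧
    (γ j).val ∣ ∑ u ∈ (univ.erase a).erase j, (γ u).val

lemma typ_map (Q : Finset (ZMod m)) (α : Q → ZMod m → ZMod r) (γ : Q → ZMod R) (u : Q) :
    typ ((univ.erase u).map (emb Q α γ)) = Q.erase u.1 := by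
  ext i
  simp only [typ, mem_image, mem_map, mem_erase, mem_univ, and_true]
  constructor
  · rintro ⟨p, ⟨v, hv, rfl⟩, rfl⟩
    exact ⟨fun h => hv (Subtype.ext h), v.2⟩
  · rintro ⟨h1, h2⟩
    exact ⟨_, ⟨⟨i, h2⟩, fun h => h1 (congrArg Subtype.val h), rfl⟩, rfl⟩

lemma typ_map_univ (Q : Finset (ZMod m)) (α : Q → ZMod m → ZMod r) (γ : Q → ZMod R) :
    typ (univ.map (emb Q α γ)) = Q := by
  ext i
  simp only [typ, mem_image, mem_map, mem_univ, true_and]
  constructor
  · rintro ⟨p, ⟨v, rfl⟩, rfl⟩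
    exact v.2
  · intro h2
    exact ⟨_, ⟨⟨i, h2⟩, rfl⟩, rfl⟩

lemma Mk_map (Q : Finset (ZMod m)) (α : Q → ZMod m → ZMod r) (γ : Q → ZMod R) (s : Finset Q)
    (i : ZMod m) : Mk i (s.map (emb Q α γ)) ↔ ∑ u ∈ s, α u i = 0 := by
  unfold Mk
  rw [sum_map]
  rfl

lemma card_erase_univ {Q : Finset (ZMod m)} (hQ : Q.card = l + 1) (u : Q) :
    ((univ : Finset Q).erase u).card = l := by
  rw [card_erase_of_mem (mem_univ _), card_univ, Fintype.card_coe, hQ]; rfl

/-- clean solutions give cliques -/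
theorem mem_KK_of_clean {D : Dat m l} {Q : Finset (ZMod m)} (hQ : IsSys l Q) {a j : Q}
    (ha : a.1 = D.a Q) (hj : j ≠ a) {α : Q → ZMod m → ZMod r} {γ : Q → ZMod R}
    (h1 : lin D Q a j α) (h2 : clean D Q a j α) (h3 : gcond Q a j γ) :
    univ.map (emb Q α γ) ∈ KK D r R := by
  classical
  unfold KK
  rw [mem_filter]
  refine ⟨mem_univ _, ?_, ?_⟩
  · rw [card_map, card_univ, Fintype.card_coe, hQ.1]
  intro p hp
  obtain ⟨u, -, rfl⟩ := mem_map.1 hp
  have he : (univ.map (emb Q α γ)).erase (emb Q α γ u) = (univ.erase u).map (emb Q α γ) := by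
    rw [map_erase]
  rw [he]
  have hc : ((univ.erase u).map (emb Q α γ)).card = l := by
    rw [card_map, card_erase_univ hQ.1]
  have hmk : ∀ v : Q, ∀ i, Mk i (((univ.erase u).map (emb Q α γ)).erase (emb Q α γ v)) ↔
      ∑ w ∈ (univ.erase u).erase v, α w i = 0 := by
    intro v i
    rw [← map_erase, Mk_map]
  -- the sums given by the linear conditions
  have hl1 : ∀ i ∈ Sp D Q j, ∀ v : Q, v.1 = i → ∑ w ∈ (univ.erase a).erase v, α w i = 0 := by
    intro i hi v hv
    rw [← h1 i]
    apply sum_congr _ (fun _ _ => rfl)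
    ext w
    simp only [mem_erase, mem_filter, mem_univ, and_true, true_and]
    constructor
    · rintro ⟨h4, h5⟩
      exact ⟨h5, fun h6 => h4 (Subtype.ext (h6.1.trans hv.symm))⟩
    · rintro ⟨h4, h5⟩
      exact ⟨fun h6 => h5 ⟨by rw [h6]; exact hv, hi⟩, h4⟩
  by_cases hua : u = a
  · -- type B1
    subst hua
    refine Or.inr (Or.inl ⟨hc, Q, hQ, ?_, j.1, ?_, ?_, ?_, ?_⟩)
    · rw [typ_map, ha]
    · rw [mem_erase, ← ha]
      exact ⟨fun h => hj (Subtype.ext h), j.2⟩
    · intro p hp i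
      obtain ⟨v, hv, rfl⟩ := mem_map.1 hp
      have hvu : v ≠ u := (mem_erase.1 hv).1
      rw [hmk]
      constructor
      · intro h
        obtain ⟨h5, h6⟩ := h2 u v (Ne.symm hvu) i h
        rcases h6 with h6 | h6
        · exact ⟨h6.2, h5⟩
        · exact absurd h6.1 hvu
      · rintro ⟨h5, h6⟩
        exact hl1 i h6 v h5
    · intro i hi
      rw [Mk_map, ← h1 i]
      apply sum_congr _ (fun _ _ => rfl)
      ext w
      simp only [mem_erase, mem_filter, mem_univ, and_true, true_and]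
      constructor
      · intro h; exact ⟨h, fun h' => hi h'.2⟩
      · intro h; exact h.1
    · intro p hp hpj
      obtain ⟨v, hv, rfl⟩ := mem_map.1 hp
      have hvj : v = j := Subtype.ext hpj
      subst hvj
      refine ⟨?_, ?_⟩
      · intro p' hp' hp'j
        obtain ⟨w, hw, rfl⟩ := mem_map.1 hp'
        exact h3.1 w (mem_erase.1 hw).1 (fun h => hp'j (congrArg Subtype.val h))
      · rw [← map_erase, sum_map]
        exact h3.2
  · by_cases hus : u.1 ∈ Sp D Q j
    · -- type B2
      refine Or.inr (Or.inr ⟨hc, Q, hQ, u.1, ?_, typ_map Q α γ u, ?_⟩)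
      · rw [mem_erase, ← ha]
        exact ⟨fun h => hua (Subtype.ext h), u.2⟩
      · intro p hp i'
        obtain ⟨v, hv, rfl⟩ := mem_map.1 hp
        have hvu : v ≠ u := (mem_erase.1 hv).1
        rw [hmk]
        constructor
        · intro h
          obtain ⟨h5, h6⟩ := h2 u v (Ne.symm hvu) i' h
          rcases h6 with h6 | h6
          · exact absurd h6.1 hua
          · exact ⟨by rw [← ha, ← h6.1]; rfl, h6.2.symm⟩
        · rintro ⟨h5, h6⟩
          have hva : v = a := Subtype.ext (by rw [ha]; exact h5)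
          subst hva
          rw [Finset.erase_right_comm, h6]
          exact hl1 u.1 hus u rfl
    · -- type A
      refine Or.inl ⟨hc, ?_, ?_⟩
      · rw [typ_map]
        by_contra hcon
        apply hus
        refine mem_insert_of_mem (mem_erase.2 ⟨?_, mem_filter.2 ⟨u.2, hcon⟩⟩)
        rw [← ha]
        exact fun h => hua (Subtype.ext h)
      · intro p hp i h
        obtain ⟨v, hv, rfl⟩ := mem_map.1 hp
        have hvu : v ≠ u := (mem_erase.1 hv).1
        rw [hmk] at h
        obtain ⟨h5, h6⟩ := h2 u v (Ne.symm hvu) i h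
        rcases h6 with h6 | h6
        · exact hua h6.1
        · exact hus (h6.2 ▸ h5)

/-- every clique is parametrised by a solution -/
theorem exists_param {D : Dat m l} (hl : 2 ≤ l) {C : Finset (Vx m r R)} (hC : C ∈ KK D r R) :
    ∃ (Q : Finset (ZMod m)) (hQ : IsSys l Q) (j : Q) (α : Q → ZMod m → ZMod r) (γ : Q → ZMod R),
      j ≠ ⟨D.a Q, D.a_mem Q hQ.1⟩ ∧ lin D Q ⟨D.a Q, D.a_mem Q hQ.1⟩ j α ∧
      gcond Q ⟨D.a Q, D.a_mem Q hQ.1⟩ j γ ∧ C = univ.map (emb Q α γ) := by
  classical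
  unfold KK at hC
  rw [mem_filter] at hC
  obtain ⟨-, hCc, hCH⟩ := hC
  have hinj := inj_of_InH hl hCc hCH
  obtain ⟨p, hp, j, hsys, hpa, hj, h1, h2, h3⟩ := clique_structure hl hCc hCH
  have hch : ∀ u : typ C, ∃ p ∈ C, p.1 = u.1 := fun u => exists_of_mem_typ u.2
  choose f hf hf1 using hch
  have hjC : j ∈ typ C := mem_of_mem_erase hj
  have hCeq : C = univ.map (emb (typ C) (fun u => (f u).2.1) (fun u => (f u).2.2)) := by
    ext x
    rw [mem_map]
    constructor
    · intro hx
      refine ⟨⟨x.1, mem_typ hx⟩, mem_univ _, ?_⟩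
      have : f ⟨x.1, mem_typ hx⟩ = x := hinj _ (hf _) _ hx (hf1 _)
      rw [emb_apply, this]
    · rintro ⟨u, -, rfl⟩
      have : emb (typ C) (fun u => (f u).2.1) (fun u => (f u).2.2) u = f u := by
        rw [emb_apply]
        exact Prod.ext (hf1 u).symm rfl
      rw [this]; exact hf u
  have hfe : ∀ u, emb (typ C) (fun u => (f u).2.1) (fun u => (f u).2.2) u = f u := by
    intro u
    rw [emb_apply]
    exact Prod.ext (hf1 u).symm rfl
  set a : typ C := ⟨D.a (typ C), D.a_mem (typ C) hsys.1⟩ with hadef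
  have hpfa : p = f a := hinj p hp _ (hf a) (by rw [hpa, hf1])
  have hCe : C.erase p = (univ.erase a).map (emb (typ C) (fun u => (f u).2.1)
      (fun u => (f u).2.2)) := by
    rw [map_erase, ← hCeq, hfe, hpfa]
  refine ⟨typ C, hsys, ⟨j, hjC⟩, fun u => (f u).2.1, fun u => (f u).2.2, ?_, ?_, ?_, hCeq⟩
  · intro h
    have := congrArg Subtype.val h
    apply (mem_erase.1 hj).1
    rw [hpa]; exact this
  · intro i
    by_cases hi : i ∈ Sp D (typ C) j
    · -- then `i` is in `typ C`
      have hiQ : i ∈ typ C := by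
        rcases mem_insert.1 hi with h | h
        · rw [h]; exact hjC
        · exact (mem_filter.1 (mem_of_mem_erase h)).1
      have hia : i ≠ D.a (typ C) := by
        rcases mem_insert.1 hi with h | h
        · rw [h, ← hpa]; exact (mem_erase.1 hj).1
        · exact (mem_erase.1 h).1
      set v : typ C := ⟨i, hiQ⟩ with hv
      have hva : v ≠ a := fun h => hia (congrArg Subtype.val h)
      have hm : Mk i ((C.erase p).erase (f v)) := by
        refine (h1 (f v) ?_ i).2 ⟨hf1 v, hi⟩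
        rw [mem_erase]
        refine ⟨fun h => hva ?_, hf v⟩
        apply Subtype.ext
        rw [← hf1 v, h, hpfa, hf1]
      rw [hCe, ← hfe v, ← map_erase, Mk_map] at hm
      rw [← hm]
      apply sum_congr _ (fun _ _ => rfl)
      ext w
      simp only [mem_erase, mem_filter, mem_univ, and_true, true_and]
      constructor
      · rintro ⟨h4, h5⟩
        exact ⟨fun h6 => h5 ⟨by rw [h6], hi⟩, h4⟩
      · rintro ⟨h4, h5⟩
        exact ⟨h5, fun h6 => h4 (Subtype.ext h6.1)⟩
    · have hm := h2 i hi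
      rw [hCe, Mk_map] at hm
      rw [← hm]
      apply sum_congr _ (fun _ _ => rfl)
      ext w
      simp only [mem_erase, mem_filter, mem_univ, and_true, true_and]
      constructor
      · intro h; exact h.1
      · intro h; exact ⟨h, fun h' => hi h'.2⟩
  · have hja : (⟨j, hjC⟩ : typ C) ≠ a := by
      intro h
      have := congrArg Subtype.val h
      apply (mem_erase.1 hj).1
      rw [hpa]; exact this
    have hfj : f ⟨j, hjC⟩ ∈ C.erase p := by
      rw [mem_erase]
      refine ⟨fun h => hja ?_, hf _⟩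
      apply Subtype.ext
      rw [← hf1, h, hpfa, hf1]
    obtain ⟨h4, h5⟩ := h3 (f ⟨j, hjC⟩) hfj (hf1 _)
    refine ⟨?_, ?_⟩
    · intro u hua huj
      have hfu : f u ∈ C.erase p := by
        rw [mem_erase]
        refine ⟨fun h => hua ?_, hf _⟩
        apply Subtype.ext
        rw [← hf1, h, hpfa, hf1]
      exact h4 (f u) hfu (fun h => huj (Subtype.ext (by rw [← hf1 u]; exact h)))
    · rw [hCe, ← hfe ⟨j, hjC⟩, ← map_erase, sum_map] at h5
      exact h5

end Pool.Agent.Helper85.FT
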