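import Pool.Agent.Helper85.FT.Cover

/-!
# Turan numbers and the Turan density
-/

set_option autoImplicit false
set_option linter.unusedSectionVars false

open Finset Filter Topology

namespace Pool.Agent.Helper85.FT

/-- `H` is an `l`-uniform hypergraph on `V` containing no complete `l`-uniform hypergraph on
`l + 1` vertices. -/
def TuranFree {V : Type*} [DecidableEq V] (l : ℕ) (H : Finset (Finset V)) : Prop :=
  (∀ e ∈ H, e.card = l) ∧ ∀ Q : Finset V, Q.card = l + 1 → ∃ q ∈ Q, Q.erase q ∉ H

open Classical in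
/-- the Turan number: the largest number of edges of an `l`-uniform hypergraph on `m` vertices
without a complete sub-hypergraph on `l + 1` vertices -/
noncomputable def exN (l m : ℕ) : ℕ :=
  ((univ : Finset (Finset (Finset (Fin m)))).filter fun H => TuranFree l H).sup Finset.card

/-- the Turan density, as an infimum; it is the limit, see `tendsto_exN`. -/
noncomputable def turanDensity (l : ℕ) : ℝ :=
  ⨅ k : ℕ, (exN l (k + l) : ℝ) / ((k + l).choose l : ℝ)

lemma exN_attained (l m : ℕ) : ∃ H : Finset (Finset (Fin m)), TuranFree l H ∧ H.card = exN l m := by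
  classical
  have hne : ((univ : Finset (Finset (Finset (Fin m)))).filter fun H => TuranFree l H).Nonempty := by
    refine ⟨∅, mem_filter.2 ⟨mem_univ _, ?_, ?_⟩⟩
    · intro e he; simp at he
    · intro Q hQ
      have : Q.Nonempty := by rw [← card_pos]; omega
      obtain ⟨q, hq⟩ := this
      exact ⟨q, hq, by simp⟩
  obtain ⟨H, hH, hH'⟩ := Finset.exists_mem_eq_sup _ hne Finset.card
  exact ⟨H, (mem_filter.1 hH).2, hH'.symm⟩

lemma card_le_exN {l m : ℕ} {H : Finset (Finset (Fin m))} (hH : TuranFree l H) :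
    H.card ≤ exN l m := by
  classical
  exact Finset.le_sup (f := Finset.card) (mem_filter.2 ⟨mem_univ _, hH⟩)

/-- transport along an embedding of types -/
lemma TuranFree.comap {V W : Type*} [DecidableEq V] [DecidableEq W] {l : ℕ}
    {H : Finset (Finset W)} (hH : TuranFree l H) (f : V ↪ W) (H' : Finset (Finset V))
    (h : ∀ e ∈ H', e.map f ∈ H) : TuranFree l H' := by
  refine ⟨fun e he => ?_, fun Q hQ => ?_⟩
  · rw [← card_map f]; exact hH.1 _ (h e he)
  · obtain ⟨q, hq, hq'⟩ := hH.2 (Q.map f) (by rw [card_map]; exact hQ)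
    obtain ⟨v, hv, rfl⟩ := Finset.mem_map.1 hq
    refine ⟨v, hv, fun hcon => hq' ?_⟩
    rw [← map_erase]
    exact h _ hcon

/-- averaging over vertex deletions -/
lemma exN_succ (l m : ℕ) (hl : 1 ≤ l) :
    (m + 1 - l) * exN l (m + 1) ≤ (m + 1) * exN l m := by
  classical
  obtain ⟨H, hH, hHc⟩ := exN_attained l (m + 1)
  -- edges avoiding `v`
  have h1 : ∀ v : Fin (m + 1), (H.filter fun e => v ∉ e).card ≤ exN l m := by
    intro v
    let f : Fin m ↪ Fin (m + 1) := v.succAboveEmb
    let H' : Finset (Finset (Fin m)) := univ.filter fun e => e.map f ∈ H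
    have hH' : TuranFree l H' := hH.comap f H' fun e he => (mem_filter.1 he).2
    refine le_trans ?_ (card_le_exN hH')
    have hsub : (H.filter fun e => v ∉ e) ⊆ H'.map (Finset.mapEmbedding f).toEmbedding := by
      intro e he
      rw [mem_filter] at he
      have hpre : (e.preimage f f.injective.injOn).map f = e := by
        ext x
        rw [Finset.mem_map]
        constructor
        · rintro ⟨y, hy, rfl⟩
          exact (mem_preimage.1 hy)
        · intro hx
          have hxv : x ≠ v := fun h => he.2 (h ▸ hx)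
          obtain ⟨y, hy⟩ := Fin.exists_succAbove_eq hxv
          refine ⟨y, mem_preimage.2 ?_, hy⟩
          show v.succAbove y ∈ e
          rw [hy]; exact hx
      refine Finset.mem_map.2 ⟨e.preimage f f.injective.injOn, mem_filter.2 ⟨mem_univ _, ?_⟩, hpre⟩
      rw [hpre]; exact he.1
    calc (H.filter fun e => v ∉ e).card ≤ (H'.map (Finset.mapEmbedding f).toEmbedding).card :=
          card_le_card hsub
      _ = H'.card := card_map _
  have h2 : ∑ v : Fin (m + 1), (H.filter fun e => v ∉ e).card = (m + 1 - l) * H.card := by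
    have e1 : ∀ v : Fin (m + 1), (H.filter fun e => v ∉ e).card
        = ∑ e ∈ H, if v ∉ e then 1 else 0 := fun v => by rw [card_filter]
    rw [sum_congr rfl fun v _ => e1 v, sum_comm]
    have e2 : ∀ e ∈ H, (∑ v : Fin (m + 1), if v ∉ e then 1 else 0) = m + 1 - l := by
      intro e he
      rw [← card_filter]
      have : (univ.filter fun v : Fin (m + 1) => v ∉ e) = eᶜ := by ext v; simp
      rw [this, card_compl, hH.1 e he, Fintype.card_fin]
    rw [sum_congr rfl e2, sum_const, smul_eq_mul, mul_comm]
  rw [← hHc, ← h2]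
  calc ∑ v : Fin (m + 1), (H.filter fun e => v ∉ e).card ≤ ∑ v : Fin (m + 1), exN l m :=
        sum_le_sum fun v _ => h1 v
    _ = (m + 1) * exN l m := by rw [sum_const, card_univ, Fintype.card_fin, smul_eq_mul]

lemma ratio_antitone (l : ℕ) (hl : 1 ≤ l) :
    Antitone fun k : ℕ => (exN l (k + l) : ℝ) / ((k + l).choose l : ℝ) := by
  apply antitone_nat_of_succ_le
  intro k
  have h1 := exN_succ l (k + l) hl
  have h2 : k + l + 1 - l = k + 1 := by omega
  rw [h2] at h1
  have h3 : (k + 1) * (k + l + 1).choose l = (k + l + 1) * (k + l).choose l := by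
    have := Nat.add_one_mul_choose_eq (k + l) k
    -- (k+l+1) * C(k+l,k) = C(k+l+1,k+1) * (k+1)
    have e1 : (k + l).choose k = (k + l).choose l := by
      rw [← Nat.choose_symm_add]
    have e2 : (k + l + 1).choose (k + 1) = (k + l + 1).choose l := by
      have : k + l + 1 = (k + 1) + l := by ring
      rw [this, ← Nat.choose_symm_add]
    rw [e1, e2] at this
    rw [this]; ring
  have e0 : k + 1 + l = k + l + 1 := by ring
  simp only [e0]
  have hp1 : (0 : ℝ) < ((k + l).choose l : ℝ) := by
    exact_mod_cast Nat.choose_pos (by omega)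
  have hp2 : (0 : ℝ) < ((k + l + 1).choose l : ℝ) := by
    exact_mod_cast Nat.choose_pos (by omega)
  rw [div_le_div_iff₀ hp2 hp1]
  have h1r : ((k : ℝ) + 1) * exN l (k + l + 1) ≤ (k + l + 1) * exN l (k + l) := by
    exact_mod_cast h1
  have h3r : ((k : ℝ) + 1) * (k + l + 1).choose l = (k + l + 1) * (k + l).choose l := by
    exact_mod_cast h3
  have hk : (0 : ℝ) < (k : ℝ) + 1 := by positivity
  have hkl : (0 : ℝ) < (k : ℝ) + l + 1 := by positivity
  have h4 : ((k : ℝ) + 1) * ((k + l + 1) * (exN l (k + l + 1) * ((k + l).choose l : ℝ))) ≤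
      ((k : ℝ) + 1) * ((k + l + 1) * (exN l (k + l) * ((k + l + 1).choose l : ℝ))) := by
    calc ((k : ℝ) + 1) * ((k + l + 1) * (exN l (k + l + 1) * ((k + l).choose l : ℝ)))
        = (((k : ℝ) + 1) * exN l (k + l + 1)) * ((k + l + 1) * (k + l).choose l) := by ring
      _ ≤ ((k + l + 1) * exN l (k + l)) * ((k + l + 1) * (k + l).choose l) :=
          mul_le_mul_of_nonneg_right h1r (by positivity)
      _ = ((k + l + 1) * exN l (k + l)) * (((k : ℝ) + 1) * (k + l + 1).choose l) := by rw [h3r]
      _ = _ := by ring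
  have h5 := le_of_mul_le_mul_left h4 hk
  exact le_of_mul_le_mul_left h5 hkl

lemma ratio_bddBelow (l : ℕ) :
    BddBelow (Set.range fun k : ℕ => (exN l (k + l) : ℝ) / ((k + l).choose l : ℝ)) :=
  ⟨0, by rintro _ ⟨k, rfl⟩; positivity⟩

/-- the Turan density is the limit of the extremal densities -/
theorem tendsto_exN (l : ℕ) (hl : 1 ≤ l) :
    Tendsto (fun m : ℕ => (exN l m : ℝ) / (m.choose l : ℝ)) atTop (𝓝 (turanDensity l)) := by
  rw [← tendsto_add_atTop_iff_nat l]
  exact tendsto_atTop_ciInf (ratio_antitone l hl) (ratio_bddBelow l)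

lemma turanDensity_le (l m : ℕ) (hm : l ≤ m) :
    turanDensity l * (m.choose l : ℝ) ≤ exN l m := by
  have h := ciInf_le (ratio_bddBelow l) (m - l)
  have e : m - l + l = m := by omega
  simp only [e] at h
  have hp : (0 : ℝ) < (m.choose l : ℝ) := by exact_mod_cast Nat.choose_pos hm
  rwa [turanDensity, ← le_div_iff₀ hp]

lemma turanDensity_nonneg (l : ℕ) : 0 ≤ turanDensity l :=
  Real.iInf_nonneg fun k => by positivity

/-- extremal data on `ZMod m` -/
lemma exists_dat (l m : ℕ) [NeZero m] : ∃ D : Dat m l, D.H.card = exN l m := by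
  classical
  obtain ⟨H, hH, hHc⟩ := exN_attained l m
  let e : ZMod m ≃ Fin m := (ZMod.finEquiv m).symm.toEquiv
  let H' : Finset (Finset (ZMod m)) := H.map (Finset.mapEmbedding e.symm.toEmbedding).toEmbedding
  have hH' : TuranFree l H' := by
    refine hH.comap e.toEmbedding H' fun s hs => ?_
    obtain ⟨t, ht, rfl⟩ := Finset.mem_map.1 hs
    have : (((Finset.mapEmbedding e.symm.toEmbedding).toEmbedding t)).map e.toEmbedding = t := by
      show (t.map e.symm.toEmbedding).map e.toEmbedding = t
      rw [Finset.map_map]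
      ext x
      simp
    rw [this]; exact ht
  choose! a ha ha' using hH'.2
  exact ⟨⟨H', hH'.1, a, ha, ha'⟩, by rw [← hHc]; exact card_map _⟩

end Pool.Agent.Helper85.FT
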